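import Pool.Agent.EllTw.Targets
import Pool.Agent.Ell.KeyA

set_option autoImplicit false

/-! Elliott's conjecture for all but boundedly many twists: `T_BLK`. -/

namespace Pool.Agent.EllTw.BLK_

open Finset Filter Pool.Agent.Ell Pool.Agent.Ell.KeyA
open scoped BigOperators ComplexConjugate

/-- the periodic part of the correlation of two twists -/
noncomputable def xi {q q' : ℕ} (χ : DirichletCharacter ℂ q) (χ' : DirichletCharacter ℂ q')
    (a : ℤ) (p p' : ℕ) (m : ℕ) : ℂ :=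
  (ch χ a (p * m) * conj (ch χ' a (p * m))) * conj (ch χ a (p' * m) * conj (ch χ' a (p' * m)))

theorem norm_ch {q : ℕ} (χ : DirichletCharacter ℂ q) (a : ℤ) (n : ℕ) : ‖ch χ a n‖ ≤ 1 :=
  DirichletCharacter.norm_le_one _ _

theorem norm_xi {q q' : ℕ} (χ : DirichletCharacter ℂ q) (χ' : DirichletCharacter ℂ q')
    (a : ℤ) (p p' : ℕ) (m : ℕ) : ‖xi χ χ' a p p' m‖ ≤ 1 := by
  unfold xi
  simp only [norm_mul, RCLike.norm_conj]
  have h1 := norm_ch χ a (p * m)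
  have h2 := norm_ch χ' a (p * m)
  have h3 := norm_ch χ a (p' * m)
  have h4 := norm_ch χ' a (p' * m)
  exact mul_le_one₀ (mul_le_one₀ h1 (norm_nonneg _) h2) (by positivity)
    (mul_le_one₀ h3 (norm_nonneg _) h4)

theorem ch_add {q : ℕ} (χ : DirichletCharacter ℂ q) (a : ℤ) (n c : ℕ) :
    ch χ a (n + q * c) = ch χ a n := by
  unfold ch
  congr 1
  push_cast
  simp

theorem per_xi {q q' : ℕ} (χ : DirichletCharacter ℂ q) (χ' : DirichletCharacter ℂ q')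
    (a : ℤ) (p p' : ℕ) : Per (q * q') (xi χ χ' a p p') := by
  intro m
  unfold xi
  have e1 : ∀ p : ℕ, ch χ a (p * (m + q * q')) = ch χ a (p * m) := by
    intro p
    rw [show p * (m + q * q') = p * m + q * (q' * p) by ring, ch_add]
  have e2 : ∀ p : ℕ, ch χ' a (p * (m + q * q')) = ch χ' a (p * m) := by
    intro p
    rw [show p * (m + q * q') = p * m + q' * (q * p) by ring, ch_add]
  rw [e1, e1, e2, e2]

theorem PF_sub {k : ℕ} (a : Fin k → ℤ) (t t' : Fin k → ℝ) (p q : ℕ) (u : ℝ) :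
    PF a t p q 0 u - PF a t' p q 0 u = PF a (fun j => t j - t' j) p q 0 u := by
  unfold PF
  rw [← Finset.sum_sub_distrib]
  refine Finset.sum_congr rfl (fun j _ => ?_)
  ring

theorem tau_sub {k : ℕ} (a : Fin k → ℤ) (s t u : Fin k → ℝ) (l : ℕ) :
    tau a (fun j => t j - u j) l = tau a (fun j => s j - u j) l - tau a (fun j => s j - t j) l := by
  unfold tau
  rw [← Finset.sum_sub_distrib]
  refine Finset.sum_congr rfl (fun j _ => ?_)
  ring

/-- the cross term of one twist -/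
noncomputable def w {k : ℕ} (a : Fin k → ℤ) (b : Fin k) (p p' : ℕ) (e : Pt k) (m : ℕ) : ℂ :=
  W a b e (p * m) * conj (W a b e (p' * m))

theorem norm_w {k : ℕ} (a : Fin k → ℤ) (b : Fin k) (p p' : ℕ) (e : Pt k) (m : ℕ) :
    ‖w a b p p' e m‖ ≤ 1 := by
  have hW : ∀ n, ‖W a b e n‖ ≤ 1 := by
    intro n
    unfold W
    rw [norm_mul]
    exact mul_le_one₀ (norm_ch _ _ _) (norm_nonneg _) (norm_ph _ _ _)
  unfold w
  rw [norm_mul, RCLike.norm_conj]
  exact mul_le_one₀ (hW _) (norm_nonneg _) (hW _)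

theorem w_cross {k : ℕ} (a : Fin k → ℤ) (b : Fin k) (p p' : ℕ) (e e' : Pt k) (m : ℕ)
    (hm : 1 ≤ m) (hp : ∀ j, |a j| < p) (hp' : ∀ j, |a j| < p') :
    w a b p p' e m * conj (w a b p p' e' m) =
      ei (PF a (fun j => e.t j - e'.t j) p p' 0 m) * xi e.χ e'.χ (a b) p p' m := by
  have h1 := ph_cross a e.t p p' m hm hp hp'
  have h2 := ph_cross a e'.t p p' m hm hp hp'
  have h3 : ei (PF a (fun j => e.t j - e'.t j) p p' 0 m) =
      ei (PF a e.t p p' 0 m) * conj (ei (PF a e'.t p p' 0 m)) := by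
    rw [conj_ei, ← ei_add, ← PF_sub]
    congr 1
  rw [h3, ← h1, ← h2]
  unfold w W xi
  simp only [map_mul, Complex.conj_conj]
  ring

theorem norm_mean_le (q : ℕ) (hq : 1 ≤ q) (ξ : ℕ → ℂ) (hξ : ∀ m, ‖ξ m‖ ≤ 1) :
    ‖mean q ξ‖ ≤ 1 := by
  unfold mean
  rw [norm_div]
  have : ‖(q : ℂ)‖ = q := by simp
  rw [this, div_le_one (by exact_mod_cast hq)]
  refine (norm_sum_le _ _).trans ?_
  refine (Finset.sum_le_sum (fun m _ => hξ m)).trans ?_
  simp

theorem card_le (N x y : ℕ) (hx : N ≤ x) (hxy : x ≤ y) (hy : y ≤ 2 * N) :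
    ((Finset.Ioc x y).card : ℝ) ≤ N := by
  rw [Nat.card_Ioc]
  exact_mod_cast (by omega : y - x ≤ N)

theorem norm_sum_card (x y : ℕ) (f : ℕ → ℂ) (hf : ∀ m ∈ Finset.Ioc x y, ‖f m‖ ≤ 1) :
    ‖∑ m ∈ Finset.Ioc x y, f m‖ ≤ (Finset.Ioc x y).card := by
  refine (norm_sum_le _ _).trans ?_
  refine (Finset.sum_le_sum hf).trans ?_
  simp

/-- two twists with a large cross sum have close exponents and related characters -/
theorem pair {k : ℕ} (a : Fin k → ℤ) (b : Fin k) (p p' : ℕ) (hpa : ∀ j, |a j| < p)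
    (hpa' : ∀ j, |a j| < p') (d c0 B0 : ℝ) (R : ℕ) (N x y : ℕ) (hd : 0 < d) (hN : 1 ≤ N)
    (hx : N ≤ x) (hxy : x ≤ y) (hy : y ≤ 2 * N) (e e' : Pt k) (he : 1 ≤ e.q) (he' : 1 ≤ e'.q)
    (HEQ : ‖∑ m ∈ Finset.Ioc x y, ei (PF a (fun j => e.t j - e'.t j) p p' 0 m) *
      xi e.χ e'.χ (a b) p p' m - mean (e.q * e'.q) (xi e.χ e'.χ (a b) p p') *
      ∑ m ∈ Finset.Ioc x y, ei (PF a (fun j => e.t j - e'.t j) p p' 0 m)‖ ≤ (N : ℝ) ^ (1 - c0))
    (hNc : (N : ℝ) ^ (1 - c0) ≤ d / 4 * N)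
    (HOSC : B0 ≤ Lam a (fun j => e.t j - e'.t j) N →
      ‖∑ m ∈ Finset.Ioc x y, ei (PF a (fun j => e.t j - e'.t j) p p' 0 m)‖ ≤ d / 4 * N)
    (HM : ‖mean (e.q * e'.q) (xi e.χ e'.χ (a b) p p')‖ ≤ d / 2 ∨
      ∃ (r : ℕ) (θ : DirichletCharacter ℂ r), 1 ≤ r ∧ r ≤ R ∧
        ∀ n : ℕ, n.Coprime (e.q * e'.q) → e.χ n * conj (e'.χ n) = θ n)
    (hbig : d * N < ‖∑ m ∈ Finset.Ioc x y, w a b p p' e m * conj (w a b p p' e' m)‖) :
    Lam a (fun j => e.t j - e'.t j) N < B0 ∧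
      ∃ (r : ℕ) (θ : DirichletCharacter ℂ r), 1 ≤ r ∧ r ≤ R ∧
        ∀ n : ℕ, n.Coprime (e.q * e'.q) → e.χ n * conj (e'.χ n) = θ n := by
  have hN' : (0 : ℝ) < N := by exact_mod_cast hN
  have e1 : ∑ m ∈ Finset.Ioc x y, w a b p p' e m * conj (w a b p p' e' m) =
      ∑ m ∈ Finset.Ioc x y, ei (PF a (fun j => e.t j - e'.t j) p p' 0 m) *
        xi e.χ e'.χ (a b) p p' m := by
    refine Finset.sum_congr rfl (fun m hm => ?_)
    rw [Finset.mem_Ioc] at hm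
    exact w_cross a b p p' e e' m (by omega) hpa hpa'
  rw [e1] at hbig
  set M := mean (e.q * e'.q) (xi e.χ e'.χ (a b) p p') with hM
  set E := ∑ m ∈ Finset.Ioc x y, ei (PF a (fun j => e.t j - e'.t j) p p' 0 m) with hE
  set X := ∑ m ∈ Finset.Ioc x y, ei (PF a (fun j => e.t j - e'.t j) p p' 0 m) *
      xi e.χ e'.χ (a b) p p' m with hX
  have hM1 : ‖M‖ ≤ 1 := by
    refine norm_mean_le _ ?_ _ (norm_xi _ _ _ _ _)
    exact Nat.one_le_iff_ne_zero.mpr (Nat.mul_ne_zero (by omega) (by omega))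
  have hE1 : ‖E‖ ≤ N :=
    (norm_sum_card x y _ (fun m _ => (norm_ei _).le)).trans (card_le N x y hx hxy hy)
  have h1 : ‖X‖ ≤ ‖X - M * E‖ + ‖M * E‖ := by
    have := norm_add_le (X - M * E) (M * E)
    rwa [sub_add_cancel] at this
  rw [norm_mul] at h1
  have h2 : 3 / 4 * d * N < ‖M‖ * ‖E‖ := by
    have : 0 < d * N := by positivity
    linarith
  constructor
  · by_contra hcon
    have h3 := HOSC (not_lt.mp hcon)
    have h4 : ‖M‖ * ‖E‖ ≤ 1 * (d / 4 * N) :=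
      mul_le_mul hM1 h3 (norm_nonneg _) zero_le_one
    have : 0 < d * N := by positivity
    linarith
  · rcases HM with h3 | h3
    · exfalso
      have h4 : ‖M‖ * ‖E‖ ≤ d / 2 * N :=
        mul_le_mul h3 hE1 (norm_nonneg _) (by positivity)
      have : 0 < d * N := by positivity
      linarith
    · exact h3

/-- the pairs of a modulus `r + 1 ≤ R` and a character -/
abbrev Cs (R : ℕ) : Type := Σ r : Fin R, DirichletCharacter ℂ ((r : ℕ) + 1)

theorem fin_Cs (R : ℕ) : Finite (Cs R) := by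
  unfold Cs
  infer_instance

/-- the counting argument -/
theorem count {k : ℕ} (S : Finset (Pt k)) (w : Pt k → ℕ → ℂ) (β : ℕ → ℂ) (I : Finset ℕ)
    (δ N : ℝ) (K1 : ℕ) (hdual : T_DUAL) (hδ : 0 < δ) (hN : 0 < N) (hI : (I.card : ℝ) ≤ N)
    (hβ : ∀ m, ‖β m‖ ≤ 1) (hw : ∀ e m, ‖w e m‖ ≤ 1)
    (hS : ∀ e ∈ S, δ * N < ‖∑ m ∈ I, β m * w e m‖)
    (hK : ∀ e ∈ S, ∀ T : Finset (Pt k), T ⊆ S →
      (∀ e' ∈ T, δ ^ 2 / 2 * N < ‖∑ m ∈ I, w e m * conj (w e' m)‖) → T.card ≤ K1) :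
    (S.card : ℝ) ≤ 2 * K1 / δ ^ 2 := by
  classical
  rcases Nat.eq_zero_or_pos S.card with h0 | h0
  · rw [h0]
    simp only [Nat.cast_zero]
    positivity
  have hD := hdual (Pt k) S I w β (fun m _ => hβ m)
  have hlow : (S.card : ℝ) * (δ * N) ≤ ∑ e ∈ S, ‖∑ m ∈ I, β m * w e m‖ := by
    have := Finset.card_nsmul_le_sum S (fun e => ‖∑ m ∈ I, β m * w e m‖) (δ * N)
      (fun e he => (hS e he).le)
    rwa [nsmul_eq_mul] at this
  have hcr : ∀ e e', ‖∑ m ∈ I, w e m * conj (w e' m)‖ ≤ N := by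
    intro e e'
    refine (norm_sum_le _ _).trans ?_
    refine le_trans (Finset.sum_le_sum (g := fun _ => (1 : ℝ)) (fun m _ => ?_)) ?_
    · rw [norm_mul, RCLike.norm_conj]
      exact mul_le_one₀ (hw _ _) (norm_nonneg _) (hw _ _)
    · simpa using hI
  have hrow : ∀ e ∈ S, ∑ e' ∈ S, ‖∑ m ∈ I, w e m * conj (w e' m)‖ ≤
      (K1 + S.card * (δ ^ 2 / 2)) * N := by
    intro e he
    set T := S.filter (fun e' => δ ^ 2 / 2 * N < ‖∑ m ∈ I, w e m * conj (w e' m)‖) with hT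
    have hTK : T.card ≤ K1 :=
      hK e he T (Finset.filter_subset _ _) (fun e' he' => (Finset.mem_filter.mp he').2)
    rw [← Finset.sum_filter_add_sum_filter_not S
      (fun e' => δ ^ 2 / 2 * N < ‖∑ m ∈ I, w e m * conj (w e' m)‖), ← hT]
    have h1 : ∑ e' ∈ T, ‖∑ m ∈ I, w e m * conj (w e' m)‖ ≤ K1 * N := by
      refine (Finset.sum_le_card_nsmul T _ N (fun e' _ => hcr e e')).trans ?_
      rw [nsmul_eq_mul]
      exact mul_le_mul_of_nonneg_right (by exact_mod_cast hTK) hN.le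
    have h2 : ∑ e' ∈ S.filter (fun e' => ¬ δ ^ 2 / 2 * N < ‖∑ m ∈ I, w e m * conj (w e' m)‖),
        ‖∑ m ∈ I, w e m * conj (w e' m)‖ ≤ S.card * (δ ^ 2 / 2 * N) := by
      refine (Finset.sum_le_card_nsmul _ _ (δ ^ 2 / 2 * N) (fun e' he' => ?_)).trans ?_
      · exact not_lt.mp (Finset.mem_filter.mp he').2
      · rw [nsmul_eq_mul]
        refine mul_le_mul_of_nonneg_right ?_ (by positivity)
        exact_mod_cast Finset.card_filter_le _ _
    calc _ ≤ K1 * N + S.card * (δ ^ 2 / 2 * N) := add_le_add h1 h2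
      _ = _ := by ring
  have hup : ∑ e ∈ S, ∑ e' ∈ S, ‖∑ m ∈ I, w e m * conj (w e' m)‖ ≤
      S.card * ((K1 + S.card * (δ ^ 2 / 2)) * N) := by
    refine (Finset.sum_le_card_nsmul S _ _ hrow).trans ?_
    rw [nsmul_eq_mul]
  have hs : (0 : ℝ) < S.card := by exact_mod_cast h0
  have h3 : ((S.card : ℝ) * (δ * N)) ^ 2 ≤ N * (S.card * ((K1 + S.card * (δ ^ 2 / 2)) * N)) := by
    refine (pow_le_pow_left₀ (by positivity) hlow 2).trans (hD.trans ?_)
    exact mul_le_mul hI hup (by positivity) hN.le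
  have h4 : (S.card : ℝ) * δ ^ 2 ≤ K1 + S.card * (δ ^ 2 / 2) := by
    have h5 : ((S.card : ℝ) * N ^ 2) * ((S.card : ℝ) * δ ^ 2) ≤
        ((S.card : ℝ) * N ^ 2) * (K1 + S.card * (δ ^ 2 / 2)) := by
      calc _ = ((S.card : ℝ) * (δ * N)) ^ 2 := by ring
        _ ≤ _ := h3
        _ = _ := by ring
    exact le_of_mul_le_mul_left h5 (by positivity)
  rw [le_div_iff₀ (by positivity)]
  linarith

theorem main (h1 : T_MEAN) (h2 : T_INJ) (h3 : T_DUAL) (h4 : T_EQ) (h5 : T_OSC) : T_BLK := by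
  classical
  intro k a b p p' C δ ha ha0 hp hp' hpp hpa hpa' hC hδ
  have hk : 1 ≤ k := by
    have := b.2
    omega
  set d : ℝ := δ ^ 2 / 2 with hd
  have hd0 : 0 < d := by positivity
  obtain ⟨B0, N1, hB0, HOSC⟩ := h5 k a p p' (C + 1) (d / 4) hk ha ha0 hp.pos hp'.pos hpp
    (by positivity) (by positivity)
  obtain ⟨c0, N2, hc0, hc04, HEQ⟩ := h4 k a p p' (C + 1) hk ha ha0 hp.pos hp'.pos hpp
    (by positivity)
  obtain ⟨R, HM⟩ := h1 (a b) p p' (d / 2) (ha0 b) hp hp' hpp (by positivity)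
  have hlim : Tendsto (fun N : ℕ => (N : ℝ) ^ c0) atTop atTop :=
    (tendsto_rpow_atTop hc0).comp tendsto_natCast_atTop_atTop
  obtain ⟨N3, hN3⟩ := eventually_atTop.mp (hlim.eventually_ge_atTop (4 / d))
  haveI := fin_Cs R
  haveI : Fintype (Cs R) := Fintype.ofFinite _
  set K1 : ℕ := Fintype.card (Cs R) with hK1
  refine ⟨⌊2 * (K1 : ℝ) / δ ^ 2⌋₊, max N3 (max N2 (max N1 2)), 2 * B0, c0 / 2, by positivity, ?_⟩
  intro N hN x y hx hxy hy β S hβ hS hsep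
  have m3 : N3 ≤ N := le_trans (le_max_left _ _) hN
  have m2 : N2 ≤ N := le_trans (le_trans (le_max_left _ _) (le_max_right _ _)) hN
  have m1 : N1 ≤ N := le_trans (le_trans (le_trans (le_max_left _ _) (le_max_right _ _))
      (le_max_right _ _)) hN
  have m0 : 2 ≤ N := le_trans (le_trans (le_trans (le_max_right _ _) (le_max_right _ _))
      (le_max_right _ _)) hN
  have hNr : (2 : ℝ) ≤ N := by exact_mod_cast m0
  have hN0 : (0 : ℝ) < N := by linarith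
  have hNc : (N : ℝ) ^ (1 - c0) ≤ d / 4 * N := by
    have g1 := hN3 N m3
    rw [Real.rpow_sub hN0, Real.rpow_one, div_le_iff₀ (by positivity)]
    have g3 : 4 / d * d ≤ (N : ℝ) ^ c0 * d := mul_le_mul_of_nonneg_right g1 hd0.le
    rw [div_mul_cancel₀ _ hd0.ne'] at g3
    have g4 : (1 : ℝ) ≤ d / 4 * (N : ℝ) ^ c0 := by linarith
    calc (N : ℝ) = 1 * N := by ring
      _ ≤ (d / 4 * (N : ℝ) ^ c0) * N := mul_le_mul_of_nonneg_right g4 (by positivity)
      _ = d / 4 * N * (N : ℝ) ^ c0 := by ring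
  have htd : ∀ e ∈ S, ∀ e' ∈ S, ∀ j, |e.t j - e'.t j| ≤ (N : ℝ) ^ (C + 1) := by
    intro e he e' he' j
    have g1 := (hS e he).2.2.1 j
    have g2 := (hS e' he').2.2.1 j
    have g3 : |e.t j - e'.t j| ≤ |e.t j| + |e'.t j| := abs_sub _ _
    rw [Real.rpow_add hN0, Real.rpow_one]
    have g4 : (0 : ℝ) < (N : ℝ) ^ C := by positivity
    nlinarith
  have hqq : ∀ e ∈ S, ∀ e' ∈ S, ((e.q * e'.q : ℕ) : ℝ) ≤ (N : ℝ) ^ c0 := by
    intro e he e' he'
    have g1 := (hS e he).2.1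
    have g2 := (hS e' he').2.1
    push_cast
    calc (e.q : ℝ) * e'.q ≤ (N : ℝ) ^ (c0 / 2) * (N : ℝ) ^ (c0 / 2) :=
          mul_le_mul g1 g2 (by positivity) (by positivity)
      _ = (N : ℝ) ^ c0 := by
          rw [← Real.rpow_add hN0]
          congr 1
          ring
  -- the pairs with a large cross sum
  have hpair : ∀ e ∈ S, ∀ e' ∈ S,
      d * N < ‖∑ m ∈ Finset.Ioc x y, w a b p p' e m * conj (w a b p p' e' m)‖ →
      Lam a (fun j => e.t j - e'.t j) N < B0 ∧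
      ∃ (r : ℕ) (θ : DirichletCharacter ℂ r), 1 ≤ r ∧ r ≤ R ∧
        ∀ n : ℕ, n.Coprime (e.q * e'.q) → e.χ n * conj (e'.χ n) = θ n := by
    intro e he e' he' hbig
    have q1 := (hS e he).1
    have q2 := (hS e' he').1
    refine pair a b p p' hpa hpa' d c0 B0 R N x y hd0 (by omega) hx hxy hy e e' q1 q2 ?_ hNc ?_ ?_
      hbig
    · exact HEQ N (fun j => e.t j - e'.t j) m2 (htd e he e' he') (e.q * e'.q) _
        (Nat.one_le_iff_ne_zero.mpr (Nat.mul_ne_zero (by omega) (by omega)))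
        (hqq e he e' he') (per_xi _ _ _ _ _) (norm_xi _ _ _ _ _) x y hx hxy hy
    · intro hL
      exact HOSC N (fun j => e.t j - e'.t j) m1 (htd e he e' he') hL x y hx hxy hy
    · exact HM e.q e'.q e.χ e'.χ q1 q2
  have key := count S (w a b p p') β (Finset.Ioc x y) δ N K1 h3 hδ hN0 (card_le N x y hx hxy hy)
    hβ (norm_w a b p p') (fun e he => (hS e he).2.2.2) ?_
  · exact Nat.le_floor key
  -- for fixed `e`
  intro e he T hTS hT
  have hch : ∀ e' ∈ T, ∃ z : Cs R, ∀ n : ℕ, n.Coprime (e.q * e'.q) →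
      e.χ n * conj (e'.χ n) = z.2 n := by
    intro e' he'
    obtain ⟨_, r, θ, r1, r2, hθ⟩ := hpair e he e' (hTS he') (hT e' he')
    obtain ⟨s, rfl⟩ : ∃ s, r = s + 1 := ⟨r - 1, by omega⟩
    exact ⟨⟨⟨s, by omega⟩, θ⟩, hθ⟩
  rcases T.eq_empty_or_nonempty with rfl | ⟨e0, he0⟩
  · simp
  haveI : Nonempty (Cs R) := (hch e0 he0).nonempty
  choose! g hg using hch
  have hinj : Set.InjOn g T := by
    intro e1 he1 e2 he2 h12
    by_contra hne
    have hs : Same e1.χ e2.χ := by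
      refine h2 e.q e1.q e2.q _ e.χ e1.χ e2.χ (g e1).2 (hS e he).1 (hS e1 (hTS he1)).1
        (hS e2 (hTS he2)).1 (hg e1 he1) ?_
      rw [h12]
      exact hg e2 he2
    obtain ⟨l, hl, hlt⟩ := hsep e1 (hTS he1) e2 (hTS he2) hne hs
    have hL : ∀ e' ∈ T, |tau a (fun j => e.t j - e'.t j) l| < B0 * (N : ℝ) ^ l := by
      intro e' he'
      have hLam := (hpair e he e' (hTS he') (hT e' he')).1
      have hNl : (0 : ℝ) < (N : ℝ) ^ l := by positivity
      rw [← div_lt_iff₀ hNl]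
      refine lt_of_le_of_lt ?_ hLam
      unfold Lam
      exact Finset.single_le_sum (f := fun l => |tau a (fun j => e.t j - e'.t j) l| / (N : ℝ) ^ l)
        (fun l _ => by positivity) hl
    have g1 := hL e1 he1
    have g2 := hL e2 he2
    rw [tau_sub a e.t e1.t e2.t l] at hlt
    have g3 : |tau a (fun j => e.t j - e2.t j) l - tau a (fun j => e.t j - e1.t j) l| ≤
        |tau a (fun j => e.t j - e2.t j) l| + |tau a (fun j => e.t j - e1.t j) l| := abs_sub _ _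
    linarith
  have := Finset.card_le_card_of_injOn g (t := Finset.univ) (fun _ _ => Finset.mem_univ _) hinj
  rwa [Finset.card_univ] at this

end Pool.Agent.EllTw.BLK_

namespace Pool.Agent.EllTw

theorem p_BLK (h1 : T_MEAN) (h2 : T_INJ) (h3 : T_DUAL) (h4 : Pool.Agent.Ell.T_EQ)
    (h5 : Pool.Agent.Ell.T_OSC) : T_BLK := BLK_.main h1 h2 h3 h4 h5

end Pool.Agent.EllTw
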