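import Pool.Agent.EllTw.FIN

set_option autoImplicit false

/-! Elliott's conjecture for all but boundedly many twists: the final statement. -/

namespace Pool.Agent.EllTw.Final_

open Finset Filter Pool.Agent.Ell Pool.Agent.Ell.KeyA Pool.Agent.EllTw Pool.Agent.EllTw.FIN_
open scoped BigOperators ComplexConjugate

theorem same_symm {q q' : ℕ} {χ : DirichletCharacter ℂ q} {χ' : DirichletCharacter ℂ q'}
    (h : Same χ χ') : Same χ' χ := by
  intro n hn
  rw [mul_comm] at hn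
  exact (h n hn).symm

theorem same_refl {q : ℕ} (χ : DirichletCharacter ℂ q) : Same χ χ := fun _ _ => rfl

theorem tau_symm {k : ℕ} (a : Fin k → ℤ) (t t' : Fin k → ℝ) (l : ℕ) :
    |tau a (fun j => t j - t' j) l| = |tau a (fun j => t' j - t j) l| := by
  rw [← abs_neg]
  congr 1
  unfold tau
  rw [← Finset.sum_neg_distrib]
  refine Finset.sum_congr rfl (fun j _ => ?_)
  ring

/-- pairwise separated -/
def Sep {k : ℕ} (a : Fin k → ℤ) (B : ℝ) (N : ℕ) (S : Finset (Pt k)) : Prop :=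
  ∀ e ∈ S, ∀ e' ∈ S, e ≠ e' → Same e.χ e'.χ →
    ∃ l ∈ Finset.Icc 1 k, B * (N : ℝ) ^ l < |tau a (fun j => e.t j - e'.t j) l|

/-- a maximal separated set of bad points -/
theorem exists_max {k : ℕ} (a : Fin k → ℤ) (B : ℝ) (hB : 0 ≤ B) (N J : ℕ) (Bad : Pt k → Prop)
    (H : ∀ S : Finset (Pt k), (∀ e ∈ S, Bad e) → Sep a B N S → S.card ≤ J) :
    ∃ S : Finset (Pt k), S.card ≤ J ∧ (∀ e ∈ S, Bad e) ∧ ∀ e, Bad e →
      ∃ e' ∈ S, Same e.χ e'.χ ∧ ∀ l ∈ Finset.Icc 1 k,
        |tau a (fun j => e.t j - e'.t j) l| ≤ B * (N : ℝ) ^ l := by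
  classical
  let Q : ℕ → Prop := fun n => ∃ S : Finset (Pt k), (∀ e ∈ S, Bad e) ∧ Sep a B N S ∧ S.card = n
  have hQ0 : Q 0 := ⟨∅, by simp, by intro e he; simp at he, by simp⟩
  set n := Nat.findGreatest Q J with hn
  have hQn : Q n := Nat.findGreatest_spec (Nat.zero_le J) hQ0
  obtain ⟨S, hS1, hS2, hS3⟩ := hQn
  refine ⟨S, H S hS1 hS2, hS1, ?_⟩
  intro e he
  by_cases heS : e ∈ S
  · refine ⟨e, heS, same_refl _, fun l _ => ?_⟩
    have : tau a (fun j => e.t j - e.t j) l = 0 := by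
      unfold tau
      simp
    rw [this, abs_zero]
    positivity
  by_contra hcon
  push Not at hcon
  have hsep : Sep a B N (insert e S) := by
    intro e1 h1 e2 h2 hne hsame
    rcases Finset.mem_insert.mp h1 with g1 | g1
    · rcases Finset.mem_insert.mp h2 with g2 | g2
      · exact absurd (g1.trans g2.symm) hne
      · subst g1
        exact hcon e2 g2 hsame
    · rcases Finset.mem_insert.mp h2 with g2 | g2
      · subst g2
        obtain ⟨l, hl, hl2⟩ := hcon e1 g1 (same_symm hsame)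
        refine ⟨l, hl, ?_⟩
        rw [tau_symm]
        exact hl2
      · exact hS2 e1 g1 e2 g2 hne hsame
  have hbad : ∀ e' ∈ insert e S, Bad e' := by
    intro e' he'
    rcases Finset.mem_insert.mp he' with rfl | h
    · exact he
    · exact hS1 e' h
  have hcard : (insert e S).card = n + 1 := by
    rw [Finset.card_insert_of_notMem heS, hS3]
  have hle : n + 1 ≤ J := by
    rw [← hcard]
    exact H _ hbad hsep
  have : n + 1 ≤ n := Nat.le_findGreatest hle ⟨insert e S, hbad, hsep, hcard⟩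
  omega

/-- shifting the sum -/
theorem shift_sum (g : ℕ → ℂ) (hg : ∀ n, ‖g n‖ ≤ 1) (h0 N : ℕ) :
    ‖∑ n ∈ Finset.Icc 1 N, g (n + h0)‖ ≤ ‖∑ m ∈ Finset.Icc 1 N, g m‖ + 2 * h0 := by
  have e1 : ∑ n ∈ Finset.Icc 1 N, g (n + h0) = ∑ m ∈ Finset.Ioc h0 (N + h0), g m := by
    have e : Finset.Icc 1 N = Finset.Ico 1 (N + 1) := by
      ext m; simp only [Finset.mem_Icc, Finset.mem_Ico]; omega
    have e' : Finset.Ioc h0 (N + h0) = Finset.Ico (1 + h0) (N + 1 + h0) := by
      ext m; simp only [Finset.mem_Ioc, Finset.mem_Ico]; omega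
    rw [e, e']
    exact Finset.sum_Ico_add' g 1 (N + 1) h0
  have e2 : ∑ m ∈ Finset.Icc 1 N, g m = ∑ m ∈ Finset.Ioc 0 N, g m := by
    have e : Finset.Icc 1 N = Finset.Ioc 0 N := by
      ext m; simp [Finset.mem_Icc, Finset.mem_Ioc, Nat.succ_le_iff]
    rw [e]
  rw [e1, e2]
  have h1 : ∑ m ∈ Finset.Ioc 0 h0, g m + ∑ m ∈ Finset.Ioc h0 (N + h0), g m =
      ∑ m ∈ Finset.Ioc 0 (N + h0), g m :=
    Finset.sum_Ioc_consecutive g (Nat.zero_le _) (by omega)
  have h2 : ∑ m ∈ Finset.Ioc 0 N, g m + ∑ m ∈ Finset.Ioc N (N + h0), g m =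
      ∑ m ∈ Finset.Ioc 0 (N + h0), g m :=
    Finset.sum_Ioc_consecutive g (Nat.zero_le _) (by omega)
  have h3 : ‖∑ m ∈ Finset.Ioc 0 h0, g m‖ ≤ h0 := by
    refine (norm_sum_le _ _).trans ((Finset.sum_le_sum fun m _ => hg m).trans ?_)
    simp
  have h4 : ‖∑ m ∈ Finset.Ioc N (N + h0), g m‖ ≤ h0 := by
    refine (norm_sum_le _ _).trans ((Finset.sum_le_sum fun m _ => hg m).trans ?_)
    simp
  have h5 : ∑ m ∈ Finset.Ioc h0 (N + h0), g m = ∑ m ∈ Finset.Ioc 0 N, g m +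
      ∑ m ∈ Finset.Ioc N (N + h0), g m - ∑ m ∈ Finset.Ioc 0 h0, g m := by
    rw [h2, ← h1]
    ring
  rw [h5]
  refine (norm_sub_le _ _).trans ?_
  have := norm_add_le (∑ m ∈ Finset.Ioc 0 N, g m) (∑ m ∈ Finset.Ioc N (N + h0), g m)
  linarith

theorem final (hT : T_TW) : ∀ (k : ℕ) (h : Fin (k + 1) → ℕ), Function.Injective h →
    ∀ (b : Fin k) (C ε : ℝ), 0 < ε →
    ∃ (J : ℕ) (B c X : ℝ), 0 < c ∧ ∀ x : ℝ, X ≤ x → ∀ D : ℕ → ℂ, (∀ n, ‖D n‖ ≤ 1) →
    ∃ S : Finset (Σ r : ℕ, DirichletCharacter ℂ r × (Fin k → ℝ)), S.card ≤ J ∧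
      (∀ e ∈ S, 1 ≤ e.1) ∧
      ∀ (q : ℕ) (χ : DirichletCharacter ℂ q) (t : Fin k → ℝ), 1 ≤ q → (q : ℝ) ≤ x ^ c →
        (∀ j, |t j| ≤ x ^ C) →
        (∃ e ∈ S, (∀ n : ℕ, n.Coprime (q * e.1) → χ n = e.2.1 n) ∧
          ∀ l ∈ Finset.Icc 1 k,
            |∑ j, (t j - e.2.2 j) * ((h j.succ : ℝ) - h 0) ^ l| ≤ B * x ^ l) ∨
        ∀ f : ArithmeticFunction ℂ, f.IsMultiplicative → (∀ n, ‖f n‖ ≤ 1) →
          ‖∑ n ∈ Finset.Icc 1 ⌊x⌋₊, D n * f (n + h 0) * χ ((n + h b.succ : ℕ) : ZMod q) *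
            ∏ j, ((n + h j.succ : ℕ) : ℂ) ^ ((t j : ℂ) * Complex.I)‖ / x ≤ ε := by
  classical
  intro k h hh b C ε hε
  set a : Fin k → ℤ := fun j => (h j.succ : ℤ) - h 0 with ha
  have hai : Function.Injective a := by
    intro i j hij
    have h1 : (h i.succ : ℤ) = h j.succ := by
      simp only [ha] at hij
      linarith
    have h2 : h i.succ = h j.succ := by exact_mod_cast h1
    exact Fin.succ_injective _ (hh h2)
  have ha0 : ∀ j, a j ≠ 0 := by
    intro j hj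
    simp only [ha] at hj
    have h1 : (h j.succ : ℤ) = h 0 := by linarith
    have h2 : h j.succ = h 0 := by exact_mod_cast h1
    exact Fin.succ_ne_zero j (hh h2)
  set C1 := max C 1 with hC1
  have hC1p : 0 < C1 := lt_of_lt_of_le one_pos (le_max_right _ _)
  obtain ⟨J, X0, B, c, hc, HT⟩ := hT k a b (2 * C1) (ε / 2) hai ha0 (by positivity) (by positivity)
  refine ⟨J, max B 0, c / 2, max (X0 + 4) (4 * h 0 / ε + 4), by positivity, ?_⟩
  intro x hx D hD
  have hx1 : (X0 : ℝ) + 4 ≤ x := (le_max_left _ _).trans hx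
  have hx2 : 4 * (h 0 : ℝ) / ε + 4 ≤ x := (le_max_right _ _).trans hx
  have hX0 : (0 : ℝ) ≤ X0 := by positivity
  have hx4 : 4 ≤ x := by linarith
  have hx0 : 0 < x := by linarith
  set N := ⌊x⌋₊ with hN
  have hNx : (N : ℝ) ≤ x := Nat.floor_le hx0.le
  have hxN : x < N + 1 := Nat.lt_floor_add_one x
  have hXN : X0 ≤ N := by
    have : (X0 : ℝ) ≤ N := by linarith
    exact_mod_cast this
  have hN3 : (3 : ℝ) ≤ N := by linarith
  have hxN2 : x ≤ (N : ℝ) ^ (2 : ℝ) := by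
    rw [Real.rpow_two]
    nlinarith
  have hpow : ∀ c' : ℝ, 0 < c' → x ^ c' ≤ (N : ℝ) ^ (2 * c') := by
    intro c' hc'
    rw [Real.rpow_mul (by positivity)]
    exact Real.rpow_le_rpow hx0.le hxN2 hc'.le
  set D' : ℕ → ℂ := fun m => D (m - h 0) with hD'
  let Bad : Pt k → Prop := fun e => 1 ≤ e.q ∧ (e.q : ℝ) ≤ (N : ℝ) ^ c ∧
    (∀ j, |e.t j| ≤ (N : ℝ) ^ (2 * C1)) ∧
    ∃ f : ℕ → ℂ, MB f ∧ ε / 2 * N < ‖∑ m ∈ Finset.Icc 1 N, f m * (D' m * W a b e m)‖
  obtain ⟨S, hS1, hS2, hS3⟩ := exists_max a (max B 0) (le_max_right _ _) N J Bad (by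
    intro S hS hsep
    refine HT N hXN D' (fun n => hD _) S hS ?_
    intro e he e' he' hne hsame
    obtain ⟨l, hl, hl2⟩ := hsep e he e' he' hne hsame
    exact ⟨l, hl, lt_of_le_of_lt (mul_le_mul_of_nonneg_right (le_max_left _ _) (by positivity))
      hl2⟩)
  refine ⟨S.image (fun e => ⟨e.q, (e.χ, e.t)⟩), Finset.card_image_le.trans hS1, ?_, ?_⟩
  · intro e he
    obtain ⟨e', he', rfl⟩ := Finset.mem_image.mp he
    exact (hS2 e' he').1
  intro q χ t hq hqx ht
  set e : Pt k := ⟨q, χ, t⟩ with hedef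
  by_cases hbad : Bad e
  · left
    obtain ⟨e', he', hsame, hl⟩ := hS3 e hbad
    refine ⟨⟨e'.q, (e'.χ, e'.t)⟩, Finset.mem_image.mpr ⟨e', he', rfl⟩, hsame, ?_⟩
    intro l hl1
    have h1 := hl l hl1
    have h2 : tau a (fun j => e.t j - e'.t j) l =
        ∑ j, (t j - e'.t j) * ((h j.succ : ℝ) - h 0) ^ l := by
      unfold tau
      refine Finset.sum_congr rfl (fun j _ => ?_)
      simp only [ha, hedef]
      push_cast
      ring
    rw [h2] at h1
    refine h1.trans ?_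
    refine mul_le_mul_of_nonneg_left ?_ (le_max_right _ _)
    exact pow_le_pow_left₀ (by positivity) hNx l
  · right
    intro f hf hfb
    have hfMB : MB (fun n => f n) := ⟨hf.map_one, fun m n hmn => hf.map_mul_of_coprime hmn, hfb⟩
    have hsmall : ‖∑ m ∈ Finset.Icc 1 N, f m * (D' m * W a b e m)‖ ≤ ε / 2 * N := by
      by_contra hcon
      push Not at hcon
      refine hbad ⟨hq, ?_, ?_, fun n => f n, hfMB, hcon⟩
      · refine hqx.trans ((hpow (c / 2) (by positivity)).trans (le_of_eq ?_))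
        congr 1
        ring
      · intro j
        refine (ht j).trans (le_trans ?_ (hpow C1 hC1p))
        exact Real.rpow_le_rpow_of_exponent_le (by linarith) (le_max_left _ _)
    have hsh := shift_sum (fun m => f m * (D' m * W a b e m)) (by
      intro n
      rw [norm_mul, norm_mul]
      exact mul_le_one₀ (hfb n) (by positivity)
        (mul_le_one₀ (hD _) (norm_nonneg _) (norm_W a b e n))) (h 0) N
    have hsum : ∑ n ∈ Finset.Icc 1 N, f (n + h 0) * (D' (n + h 0) * W a b e (n + h 0)) =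
        ∑ n ∈ Finset.Icc 1 N, D n * f (n + h 0) * χ ((n + h b.succ : ℕ) : ZMod q) *
            ∏ j, ((n + h j.succ : ℕ) : ℂ) ^ ((t j : ℂ) * Complex.I) := by
      refine Finset.sum_congr rfl (fun n _ => ?_)
      have e1 : D' (n + h 0) = D n := by simp [hD']
      have e2 : ch χ (a b) (n + h 0) = χ ((n + h b.succ : ℕ) : ZMod q) := by
        unfold ch
        congr 1
        simp only [ha]
        push_cast
        ring
      have e3 : ph a t (n + h 0) = ∏ j, ((n + h j.succ : ℕ) : ℂ) ^ ((t j : ℂ) * Complex.I) := by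
        unfold ph nit
        refine Finset.prod_congr rfl (fun j _ => ?_)
        congr 2
        unfold sh
        simp only [ha]
        push_cast
        have : ((n : ℤ) + h 0 + ((h j.succ : ℤ) - h 0)) = ((n + h j.succ : ℕ) : ℤ) := by
          push_cast
          ring
        rw [this, Int.toNat_natCast]
      rw [e1]
      change f (n + h 0) * (D n * (ch χ (a b) (n + h 0) * ph a t (n + h 0))) = _
      rw [e2, e3]
      ring
    rw [← hsum, div_le_iff₀ hx0]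
    refine hsh.trans ?_
    have h1 : 4 * (h 0 : ℝ) / ε ≤ x - 4 := by linarith
    rw [div_le_iff₀ hε] at h1
    have h2 : ε / 2 * N ≤ ε / 2 * x := mul_le_mul_of_nonneg_left hNx (by positivity)
    nlinarith

end Pool.Agent.EllTw.Final_
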