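import Pool.Agent.EllTw.Targets

set_option autoImplicit false

/-! TW-INJ and TW-DUAL (MP_f3f922_nt): `θ` determines the class of `χ'`; duality. -/

namespace Pool.Agent.EllTw

open Finset Filter Pool.Agent.Ell
open scoped BigOperators ComplexConjugate

namespace INJ_

/-- a number coprime to `q q₁ q₂` in the class of `n` -/
lemma choose_rep (q m n : ℕ) (hq : 1 ≤ q) (hm : 1 ≤ m) (hn : n.Coprime m) :
    ∃ n' : ℕ, n'.Coprime (q * m) ∧ n' ≡ n [MOD m] := by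
  have : NeZero (q * m) := ⟨by positivity⟩
  have : NeZero m := ⟨by omega⟩
  have hdvd : m ∣ q * m := Dvd.intro_left q rfl
  obtain ⟨u, hu⟩ := ZMod.unitsMap_surjective hdvd (ZMod.unitOfCoprime n hn)
  refine ⟨(u : ZMod (q * m)).val, ZMod.val_coe_unit_coprime u, ?_⟩
  have h1 : ((ZMod.unitsMap hdvd u : (ZMod m)ˣ) : ZMod m) = ((n : ℕ) : ZMod m) := by
    rw [hu, ZMod.coe_unitOfCoprime]
  rw [ZMod.unitsMap_val] at h1
  rw [← ZMod.natCast_eq_natCast_iff, ← h1]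
  rw [ZMod.natCast_val]

lemma conj_inj {x y : ℂ} (h : conj x = conj y) : x = y := by
  have := congrArg conj h
  simpa using this

end INJ_

theorem p_INJ : T_INJ := by
  intro q q₁ q₂ r χ χ₁ χ₂ θ hq h1 h2 H1 H2 n hn
  obtain ⟨n', hc, hmod⟩ := INJ_.choose_rep q (q₁ * q₂) n hq (Nat.mul_pos h1 h2) hn
  have hcq : n'.Coprime q := Nat.Coprime.coprime_mul_right_right hc
  have hc12 : n'.Coprime (q₁ * q₂) := Nat.Coprime.coprime_mul_left_right hc
  have hc1 : n'.Coprime q₁ := Nat.Coprime.coprime_mul_right_right hc12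
  have hc2 : n'.Coprime q₂ := Nat.Coprime.coprime_mul_left_right hc12
  have e1 := H1 n' (Nat.Coprime.mul_right hcq hc1)
  have e2 := H2 n' (Nat.Coprime.mul_right hcq hc2)
  have hne : χ n' ≠ 0 := by
    have hu : IsUnit ((n' : ℕ) : ZMod q) := (ZMod.isUnit_iff_coprime n' q).mpr hcq
    exact (hu.map χ).ne_zero
  have e3 : conj (χ₁ n') = conj (χ₂ n') := by
    apply mul_left_cancel₀ hne
    rw [e1, e2]
  have e4 : χ₁ n' = χ₂ n' := INJ_.conj_inj e3
  have m1 : ((n' : ℕ) : ZMod q₁) = ((n : ℕ) : ZMod q₁) :=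
    (ZMod.natCast_eq_natCast_iff _ _ _).mpr (hmod.of_mul_right q₂)
  have m2 : ((n' : ℕ) : ZMod q₂) = ((n : ℕ) : ZMod q₂) :=
    (ZMod.natCast_eq_natCast_iff _ _ _).mpr (hmod.of_mul_left q₁)
  rw [← m1, ← m2]
  exact e4

namespace INJ_

/-- a unimodular number rotating `z` to its norm -/
lemma rot (z : ℂ) : ∃ c : ℂ, ‖c‖ ≤ 1 ∧ c * z = (‖z‖ : ℂ) := by
  by_cases hz : z = 0
  · exact ⟨0, by simp, by simp [hz]⟩
  · have hn : (‖z‖ : ℂ) ≠ 0 := by
      exact_mod_cast norm_ne_zero_iff.mpr hz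
    refine ⟨conj z / (‖z‖ : ℂ), ?_, ?_⟩
    · rw [norm_div, RCLike.norm_conj, Complex.norm_real, norm_norm, div_self (norm_ne_zero_iff.mpr hz)]
    · rw [div_mul_eq_mul_div, mul_comm, Complex.mul_conj, Complex.normSq_eq_norm_sq]
      rw [div_eq_iff hn]
      push_cast
      ring

end INJ_

theorem p_DUAL : T_DUAL := by
  classical
  intro ι S I w β hβ
  choose c hc1 hc2 using fun e : ι => INJ_.rot (∑ m ∈ I, β m * w e m)
  -- the sum of norms is at most the sum over m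
  have hA : ∑ e ∈ S, ‖∑ m ∈ I, β m * w e m‖ ≤ ∑ m ∈ I, ‖∑ e ∈ S, c e * w e m‖ := by
    have h1 : ((∑ e ∈ S, ‖∑ m ∈ I, β m * w e m‖ : ℝ) : ℂ) =
        ∑ m ∈ I, β m * ∑ e ∈ S, c e * w e m := by
      push_cast
      calc ∑ e ∈ S, ((‖∑ m ∈ I, β m * w e m‖ : ℝ) : ℂ)
          = ∑ e ∈ S, c e * ∑ m ∈ I, β m * w e m := by
            apply Finset.sum_congr rfl
            intro e _
            rw [hc2 e]
        _ = ∑ e ∈ S, ∑ m ∈ I, β m * (c e * w e m) := by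
            apply Finset.sum_congr rfl
            intro e _
            rw [Finset.mul_sum]
            apply Finset.sum_congr rfl
            intro m _
            ring
        _ = ∑ m ∈ I, β m * ∑ e ∈ S, c e * w e m := by
            rw [Finset.sum_comm]
            apply Finset.sum_congr rfl
            intro m _
            rw [Finset.mul_sum]
    have h2 : (∑ e ∈ S, ‖∑ m ∈ I, β m * w e m‖ : ℝ) =
        ‖∑ m ∈ I, β m * ∑ e ∈ S, c e * w e m‖ := by
      rw [← h1, Complex.norm_real, Real.norm_eq_abs, abs_of_nonneg]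
      exact Finset.sum_nonneg (fun e _ => norm_nonneg _)
    rw [h2]
    refine (norm_sum_le _ _).trans (Finset.sum_le_sum ?_)
    intro m hm
    rw [norm_mul]
    calc ‖β m‖ * ‖∑ e ∈ S, c e * w e m‖ ≤ 1 * ‖∑ e ∈ S, c e * w e m‖ :=
          mul_le_mul_of_nonneg_right (hβ m hm) (norm_nonneg _)
      _ = _ := one_mul _
  have hA0 : 0 ≤ ∑ e ∈ S, ‖∑ m ∈ I, β m * w e m‖ := Finset.sum_nonneg (fun e _ => norm_nonneg _)
  -- Cauchy-Schwarz
  have hB : (∑ m ∈ I, ‖∑ e ∈ S, c e * w e m‖) ^ 2 ≤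
      (I.card : ℝ) * ∑ m ∈ I, ‖∑ e ∈ S, c e * w e m‖ ^ 2 := sq_sum_le_card_mul_sum_sq
  -- expand
  have hC : ∑ m ∈ I, ‖∑ e ∈ S, c e * w e m‖ ^ 2 ≤
      ∑ e ∈ S, ∑ e' ∈ S, ‖∑ m ∈ I, w e m * conj (w e' m)‖ := by
    have h1 : ((∑ m ∈ I, ‖∑ e ∈ S, c e * w e m‖ ^ 2 : ℝ) : ℂ) =
        ∑ e ∈ S, ∑ e' ∈ S, (c e * conj (c e')) * ∑ m ∈ I, w e m * conj (w e' m) := by
      push_cast
      have h2 : ∀ m ∈ I, ((‖∑ e ∈ S, c e * w e m‖ : ℝ) : ℂ) ^ 2 =
          ∑ e ∈ S, ∑ e' ∈ S, (c e * conj (c e')) * (w e m * conj (w e' m)) := by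
        intro m _
        have h3 : ((‖∑ e ∈ S, c e * w e m‖ : ℝ) : ℂ) ^ 2 =
            (∑ e ∈ S, c e * w e m) * conj (∑ e ∈ S, c e * w e m) := by
          rw [Complex.mul_conj, Complex.normSq_eq_norm_sq]
          push_cast
          rfl
        rw [h3, map_sum, Finset.sum_mul_sum]
        apply Finset.sum_congr rfl
        intro e _
        apply Finset.sum_congr rfl
        intro e' _
        rw [map_mul]
        ring
      rw [Finset.sum_congr rfl h2, Finset.sum_comm]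
      apply Finset.sum_congr rfl
      intro e _
      rw [Finset.sum_comm]
      apply Finset.sum_congr rfl
      intro e' _
      rw [Finset.mul_sum]
    have h4 : (∑ m ∈ I, ‖∑ e ∈ S, c e * w e m‖ ^ 2 : ℝ) =
        ‖∑ e ∈ S, ∑ e' ∈ S, (c e * conj (c e')) * ∑ m ∈ I, w e m * conj (w e' m)‖ := by
      rw [← h1, Complex.norm_real, Real.norm_eq_abs, abs_of_nonneg]
      exact Finset.sum_nonneg (fun e _ => by positivity)
    rw [h4]
    refine (norm_sum_le _ _).trans (Finset.sum_le_sum ?_)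
    intro e _
    refine (norm_sum_le _ _).trans (Finset.sum_le_sum ?_)
    intro e' _
    rw [norm_mul]
    have h5 : ‖c e * conj (c e')‖ ≤ 1 := by
      rw [norm_mul, RCLike.norm_conj]
      exact mul_le_one₀ (hc1 e) (norm_nonneg _) (hc1 e')
    calc _ ≤ 1 * ‖∑ m ∈ I, w e m * conj (w e' m)‖ :=
          mul_le_mul_of_nonneg_right h5 (norm_nonneg _)
      _ = _ := one_mul _
  calc (∑ e ∈ S, ‖∑ m ∈ I, β m * w e m‖) ^ 2
      ≤ (∑ m ∈ I, ‖∑ e ∈ S, c e * w e m‖) ^ 2 := pow_le_pow_left₀ hA0 hA 2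
    _ ≤ (I.card : ℝ) * ∑ m ∈ I, ‖∑ e ∈ S, c e * w e m‖ ^ 2 := hB
    _ ≤ _ := mul_le_mul_of_nonneg_left hC (Nat.cast_nonneg _)

end Pool.Agent.EllTw
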