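import Pool.Agent.EllTw.Targets
import Pool.Agent.Ell.CRT

set_option autoImplicit false

/-! Job TW-MEAN: the mean over `q q'` is the mean for the primitive character. -/

namespace Pool.Agent.EllTw

open Finset Filter Pool.Agent.Ell
open scoped BigOperators ComplexConjugate

namespace MEAN_

lemma sum_range_mul_per {a : ℕ} {f : ℕ → ℂ} (h : Per a f) (c : ℕ) :
    ∑ m ∈ range (a * c), f m = c * ∑ m ∈ range a, f m := by
  induction c with
  | zero => simp
  | succ c ih =>
    rw [Nat.mul_succ, Finset.sum_range_add, ih]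
    have : ∑ x ∈ range a, f (a * c + x) = ∑ x ∈ range a, f x := by
      refine Finset.sum_congr rfl fun x _ => ?_
      rw [add_comm, CRTJob.per_mul h]
    rw [this]
    push_cast
    ring

lemma mean_per_dvd {a b : ℕ} {f : ℕ → ℂ} (h : Per a f) (hab : a ∣ b) (ha : 1 ≤ a) (hb : 1 ≤ b) :
    mean b f = mean a f := by
  obtain ⟨c, rfl⟩ := hab
  unfold mean
  rw [sum_range_mul_per h]
  have hc : (c : ℂ) ≠ 0 := by
    rintro hc
    have : c = 0 := by exact_mod_cast hc
    subst this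
    simp at hb
  have ha' : (a : ℂ) ≠ 0 := by
    have : a ≠ 0 := by omega
    exact_mod_cast this
  push_cast
  field_simp

/-- `χ(z) conj χ'(z)` -/
noncomputable def AA {q q' : ℕ} (χ : DirichletCharacter ℂ q) (χ' : DirichletCharacter ℂ q')
    (z : ℤ) : ℂ := χ (z : ZMod q) * conj (χ' (z : ZMod q'))

/-- the product character -/
noncomputable def Th {q q' : ℕ} (χ : DirichletCharacter ℂ q) (χ' : DirichletCharacter ℂ q') :
    DirichletCharacter ℂ (q * q') :=
  DirichletCharacter.changeLevel (Dvd.intro _ rfl) χ *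
    (DirichletCharacter.changeLevel (Dvd.intro_left _ rfl) χ')⁻¹

lemma conj_eq_inv {q : ℕ} (χ : DirichletCharacter ℂ q) (z : ZMod q) :
    conj (χ z) = χ⁻¹ z := by
  rw [← MulChar.star_eq_inv]
  rfl

lemma AA_eq_Th {q q' : ℕ} (χ : DirichletCharacter ℂ q) (χ' : DirichletCharacter ℂ q') (z : ℤ)
    (hz : IsCoprime z ((q * q' : ℕ) : ℤ)) : AA χ χ' z = Th χ χ' (z : ZMod (q * q')) := by
  unfold AA Th
  rw [MulChar.mul_apply, DirichletCharacter.changeLevel_eq_cast_of_dvd' _ _ hz, conj_eq_inv]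
  congr 1
  rw [← map_inv, DirichletCharacter.changeLevel_eq_cast_of_dvd' _ _ hz]

lemma AA_eq_prim {q q' : ℕ} (χ : DirichletCharacter ℂ q) (χ' : DirichletCharacter ℂ q') (z : ℤ)
    (hz : IsCoprime z ((q * q' : ℕ) : ℤ)) :
    AA χ χ' z = (Th χ χ').primitiveCharacter (z : ZMod (Th χ χ').conductor) := by
  rw [AA_eq_Th χ χ' z hz, DirichletCharacter.primitiveCharacter_apply_of_isCoprime _ hz]

lemma AA_eq_zero {q q' : ℕ} (χ : DirichletCharacter ℂ q) (χ' : DirichletCharacter ℂ q') (z : ℤ)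
    (hz : ¬ IsCoprime z ((q * q' : ℕ) : ℤ)) : AA χ χ' z = 0 := by
  unfold AA
  by_cases h1 : IsCoprime z (q : ℤ)
  · by_cases h2 : IsCoprime z (q' : ℤ)
    · exact absurd (by push_cast; exact h1.mul_right h2) hz
    · rw [(DirichletCharacter.apply_eq_zero_iff χ' z).2 h2]
      simp
  · rw [(DirichletCharacter.apply_eq_zero_iff χ z).2 h1, zero_mul]

/-- the primes that divide `q q'` and not the conductor -/
noncomputable def SS {q q' : ℕ} (χ : DirichletCharacter ℂ q) (χ' : DirichletCharacter ℂ q') :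
    Finset ℕ := (q * q').primeFactors.filter fun l => ¬ l ∣ (Th χ χ').conductor

lemma AA_prod {q q' : ℕ} (hq : 1 ≤ q) (hq' : 1 ≤ q') (χ : DirichletCharacter ℂ q)
    (χ' : DirichletCharacter ℂ q') (z : ℤ) :
    AA χ χ' z = (Th χ χ').primitiveCharacter (z : ZMod (Th χ χ').conductor) *
      ∏ l ∈ SS χ χ', (if (l : ℤ) ∣ z then (0 : ℂ) else 1) := by
  have hqq : q * q' ≠ 0 := by positivity
  by_cases hz : IsCoprime z ((q * q' : ℕ) : ℤ)
  · rw [AA_eq_prim χ χ' z hz]
    have : ∏ l ∈ SS χ χ', (if (l : ℤ) ∣ z then (0 : ℂ) else 1) = 1 := by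
      refine Finset.prod_eq_one fun l hl => ?_
      rw [if_neg]
      intro hd
      have hl' := (Nat.mem_primeFactors.1 (Finset.mem_filter.1 hl).1)
      have h1 : (l : ℤ) ∣ ((q * q' : ℕ) : ℤ) := by exact_mod_cast hl'.2.1
      have h2 := hz.isUnit_of_dvd' hd h1
      rw [Int.isUnit_iff_natAbs_eq] at h2
      simp only [Int.natAbs_natCast] at h2
      exact hl'.1.one_lt.ne' h2
    rw [this, mul_one]
  · rw [AA_eq_zero χ χ' z hz]
    by_cases hr : IsCoprime z (((Th χ χ').conductor : ℕ) : ℤ)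
    · rw [Int.isCoprime_iff_gcd_eq_one] at hz
      obtain ⟨l, hl, hlz⟩ := Nat.exists_prime_and_dvd hz
      have h1 : (l : ℤ) ∣ z := Int.natCast_dvd.2 (hlz.trans (Int.gcd_dvd_natAbs_left _ _))
      have h2 : l ∣ q * q' := by
        have h3 := hlz.trans (Int.gcd_dvd_natAbs_right z ((q * q' : ℕ) : ℤ))
        rw [Int.natAbs_natCast] at h3
        exact h3
      symm
      apply mul_eq_zero_of_right
      refine Finset.prod_eq_zero (i := l) ?_ (if_pos h1)
      unfold SS
      rw [Finset.mem_filter, Nat.mem_primeFactors]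
      refine ⟨⟨hl, h2, hqq⟩, ?_⟩
      intro hd
      have h3 : (l : ℤ) ∣ (((Th χ χ').conductor : ℕ) : ℤ) := by exact_mod_cast hd
      have h4 := hr.isUnit_of_dvd' h1 h3
      rw [Int.isUnit_iff_natAbs_eq] at h4
      simp only [Int.natAbs_natCast] at h4
      exact hl.one_lt.ne' h4
    · rw [(DirichletCharacter.apply_eq_zero_iff _ z).2 hr, zero_mul]

end MEAN_

open MEAN_

theorem p_MEAN (h : T_RAM) : T_MEAN := by
  intro a p p' η ha hp hp' hpp hη
  obtain ⟨K, hK⟩ := h a p p' ha hp hp' hpp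
  refine ⟨⌈K / η⌉₊, ?_⟩
  intro q q' χ χ' hq hq'
  have hqq : q * q' ≠ 0 := by positivity
  have : NeZero (q * q') := ⟨hqq⟩
  set r := (Th χ χ').conductor with hr
  have hr1 : 1 ≤ r := Nat.one_le_iff_ne_zero.2 (DirichletCharacter.conductor_ne_zero _)
  by_cases hrR : r ≤ ⌈K / η⌉₊
  · right
    refine ⟨r, (Th χ χ').primitiveCharacter, hr1, hrR, ?_⟩
    intro n hn
    have h1 : IsCoprime (n : ℤ) ((q * q' : ℕ) : ℤ) := Nat.isCoprime_iff_coprime.2 hn
    have h2 := AA_eq_prim χ χ' n h1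
    unfold AA at h2
    simpa using h2
  · left
    rw [not_le] at hrR
    have hKr : K ≤ η * r := by
      have h1 : K / η ≤ r := (Nat.le_ceil _).trans (by exact_mod_cast hrR.le)
      rwa [div_le_iff₀ hη, mul_comm] at h1
    let ξ : ℕ → ℂ := fun m => ch (Th χ χ').primitiveCharacter a (p * m) *
      conj (ch (Th χ χ').primitiveCharacter a (p' * m))
    let u : ℕ → ℕ → ℂ := fun l m => (if (l : ℤ) ∣ ((p * m : ℕ) : ℤ) + a then (0 : ℂ) else 1) *
      (if (l : ℤ) ∣ ((p' * m : ℕ) : ℤ) + a then (0 : ℂ) else 1)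
    have hF : (fun m => (ch χ a (p * m) * conj (ch χ' a (p * m))) *
        conj (ch χ a (p' * m) * conj (ch χ' a (p' * m)))) =
        fun m => ξ m * ∏ l ∈ SS χ χ', u l m := by
      funext m
      have e1 := AA_prod hq hq' χ χ' (((p * m : ℕ) : ℤ) + a)
      have e2 := AA_prod hq hq' χ χ' (((p' * m : ℕ) : ℤ) + a)
      unfold AA at e1 e2
      simp only [ξ, u, ch]
      rw [e1, e2, map_mul, map_prod, Finset.prod_mul_distrib]
      have e3 : ∏ l ∈ SS χ χ', conj (if (l : ℤ) ∣ ((p' * m : ℕ) : ℤ) + a then (0 : ℂ) else 1) =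
          ∏ l ∈ SS χ χ', (if (l : ℤ) ∣ ((p' * m : ℕ) : ℤ) + a then (0 : ℂ) else 1) := by
        refine Finset.prod_congr rfl fun l _ => ?_
        split_ifs <;> simp
      rw [e3]
      ring
    have hξ : Per r ξ := by
      intro m
      simp only [ξ, ch]
      have e : ∀ (x : ℕ), ((((x * (m + r) : ℕ) : ℤ) + a : ℤ) : ZMod r) =
          ((((x * m : ℕ) : ℤ) + a : ℤ) : ZMod r) := by
        intro x
        push_cast
        simp
      rw [e p, e p']
    have hper : ∀ l, Per l (u l) := by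
      intro l m
      simp only [u]
      have e : ∀ (x : ℕ), ((l : ℤ) ∣ ((x * (m + l) : ℕ) : ℤ) + a) ↔
          ((l : ℤ) ∣ ((x * m : ℕ) : ℤ) + a) := by
        intro x
        have : ((x * (m + l) : ℕ) : ℤ) + a = (((x * m : ℕ) : ℤ) + a) + l * x := by
          push_cast
          ring
        rw [this]
        exact (Int.dvd_add_left (Dvd.intro _ rfl))
      simp only [e]
    have hS : ∀ l ∈ SS χ χ', l.Prime ∧ ¬ l ∣ r ∧ Per l (u l) := by
      intro l hl
      have hl' := Finset.mem_filter.1 hl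
      exact ⟨(Nat.mem_primeFactors.1 hl'.1).1, hl'.2, hper l⟩
    have hcrt := p_CRT r ξ (SS χ χ') u hr1 hξ hS
    have hSdvd : ∏ l ∈ SS χ χ', l ∣ q * q' := by
      refine Finset.prod_primes_dvd _ (fun l hl => (hS l hl).1.prime) fun l hl => ?_
      exact (Nat.mem_primeFactors.1 (Finset.mem_filter.1 hl).1).2.1
    have hcop : Nat.Coprime r (∏ l ∈ SS χ χ', l) := by
      refine Nat.Coprime.prod_right fun l hl => ?_
      exact ((Nat.Prime.coprime_iff_not_dvd (hS l hl).1).2 (hS l hl).2.1).symm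
    have hdvd : r * ∏ l ∈ SS χ χ', l ∣ q * q' :=
      hcop.mul_dvd_of_dvd_of_dvd (DirichletCharacter.conductor_dvd_level _) hSdvd
    have hpos : 1 ≤ r * ∏ l ∈ SS χ χ', l :=
      Nat.mul_pos hr1 (Finset.prod_pos fun l hl => (hS l hl).1.pos)
    have hPer : Per (r * ∏ l ∈ SS χ χ', l) (fun m => ξ m * ∏ l ∈ SS χ χ', u l m) := by
      intro m
      have h1 : ξ (m + r * ∏ l ∈ SS χ χ', l) = ξ m := CRTJob.per_dvd hξ (Dvd.intro _ rfl) m
      have h2 : ∏ l' ∈ SS χ χ', u l' (m + r * ∏ l ∈ SS χ χ', l) = ∏ l' ∈ SS χ χ', u l' m := by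
        refine Finset.prod_congr rfl fun l' h' => ?_
        exact CRTJob.per_dvd (hper l') (Dvd.dvd.mul_left (Finset.dvd_prod_of_mem _ h') _) m
      simp only [h1, h2]
    rw [hF, mean_per_dvd hPer hdvd hpos (Nat.one_le_iff_ne_zero.2 hqq), hcrt, norm_mul]
    have hm1 : ‖mean r ξ‖ ≤ η := by
      unfold mean
      rw [norm_div, Complex.norm_natCast]
      have hr0 : (0 : ℝ) < r := by exact_mod_cast hr1
      rw [div_le_iff₀ hr0]
      exact (hK r _ hr1 (DirichletCharacter.primitiveCharacter_isPrimitive _)).trans hKr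
    have hu : ∀ l m, ‖u l m‖ ≤ 1 := by
      intro l m
      simp only [u]
      split_ifs <;> simp
    have hm2 : ‖∏ l ∈ SS χ χ', mean l (u l)‖ ≤ 1 := by
      rw [norm_prod]
      refine Finset.prod_le_one (fun _ _ => norm_nonneg _) fun l hl => ?_
      unfold mean
      rw [norm_div, Complex.norm_natCast]
      have hl0 : (0 : ℝ) < l := by exact_mod_cast (hS l hl).1.pos
      rw [div_le_one hl0]
      refine (norm_sum_le _ _).trans ?_
      refine (Finset.sum_le_sum fun m _ => hu l m).trans ?_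
      simp
    calc ‖mean r ξ‖ * ‖∏ l ∈ SS χ χ', mean l (u l)‖ ≤ η * 1 :=
          mul_le_mul hm1 hm2 (norm_nonneg _) hη.le
      _ = η := mul_one η

end Pool.Agent.EllTw
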