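import Pool.Agent.EllTw.RAM
import Pool.Agent.EllTw.MEAN
import Pool.Agent.EllTw.INJ
import Pool.Agent.EllTw.BLK
import Pool.Agent.EllTw.Final
import Pool.Agent.Ell.CRT
import Pool.Agent.Ell.Kat
import Pool.Agent.Ell.Phi
import Pool.Agent.Ell.EQ
import Pool.Agent.Ell.Core

set_option autoImplicit false

/-! Elliott's conjecture for all but boundedly many twists: assembly. -/

namespace Pool.Agent.EllTw

open Pool.Agent.Ell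

theorem all : T_TW :=
  p_TW p_KAT (p_BLK (p_MEAN p_RAM) p_INJ p_DUAL (p_EQ p_CORE p_PHI) (p_OSC p_CORE p_PHI))

theorem main : ∀ (k : ℕ) (h : Fin (k + 1) → ℕ), Function.Injective h →
    ∀ (b : Fin k) (C ε : ℝ), 0 < ε →
    ∃ (J : ℕ) (B c X : ℝ), 0 < c ∧ ∀ x : ℝ, X ≤ x → ∀ D : ℕ → ℂ, (∀ n, ‖D n‖ ≤ 1) →
    ∃ S : Finset (Σ r : ℕ, DirichletCharacter ℂ r × (Fin k → ℝ)), S.card ≤ J ∧
      (∀ e ∈ S, 1 ≤ e.1) ∧
      ∀ (q : ℕ) (χ : DirichletCharacter ℂ q) (t : Fin k → ℝ), 1 ≤ q → (q : ℝ) ≤ x ^ c →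
        (∀ j, |t j| ≤ x ^ C) →
        (∃ e ∈ S, (∀ n : ℕ, n.Coprime (q * e.1) → χ n = e.2.1 n) ∧
          ∀ l ∈ Finset.Icc 1 k,
            |∑ j, (t j - e.2.2 j) * ((h j.succ : ℝ) - h 0) ^ l| ≤ B * x ^ l) ∨
        ∀ f : ArithmeticFunction ℂ, f.IsMultiplicative → (∀ n, ‖f n‖ ≤ 1) →
          ‖∑ n ∈ Finset.Icc 1 ⌊x⌋₊, D n * f (n + h 0) * χ ((n + h b.succ : ℕ) : ZMod q) *
            ∏ j, ((n + h j.succ : ℕ) : ℂ) ^ ((t j : ℂ) * Complex.I)‖ / x ≤ ε :=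
  Final_.final all

end Pool.Agent.EllTw
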