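import Pool.Agent.EllTw.Targets
import Pool.Agent.Ell.KeyE

set_option autoImplicit false

/-! Elliott's conjecture for all but boundedly many twists: from blocks to the whole interval. -/

namespace Pool.Agent.EllTw.FIN_

open Finset Filter Pool.Agent.Ell Pool.Agent.Ell.KeyA Pool.Agent.Ell.KeyE Pool.Agent.EllTw
open scoped BigOperators ComplexConjugate

theorem norm_ch {q : ℕ} (χ : DirichletCharacter ℂ q) (a : ℤ) (n : ℕ) : ‖ch χ a n‖ ≤ 1 :=
  DirichletCharacter.norm_le_one χ _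

theorem norm_W {k : ℕ} (a : Fin k → ℤ) (b : Fin k) (e : Pt k) (n : ℕ) : ‖W a b e n‖ ≤ 1 := by
  unfold W
  rw [norm_mul]
  exact mul_le_one₀ (norm_ch _ _ _) (norm_nonneg _) (norm_ph _ _ _)

/-- one step of the dyadic decomposition -/
theorem step (g : ℕ → ℂ) (hg : ∀ m, ‖g m‖ ≤ 1) (u v : ℕ) (huv : u ≤ v) :
    ‖∑ m ∈ Finset.Ioc 0 v, g m‖ ≤ ‖∑ m ∈ Finset.Ioc 0 u, g m‖ +
      (‖∑ m ∈ Finset.Ioc (u + 1) v, g m‖ + 1) := by
  rcases Nat.eq_or_lt_of_le huv with h | h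
  · subst h
    have := norm_nonneg (∑ m ∈ Finset.Ioc (u + 1) u, g m)
    linarith
  · have e1 : ∑ m ∈ Finset.Ioc 0 v, g m = ∑ m ∈ Finset.Ioc 0 u, g m +
        (g (u + 1) + ∑ m ∈ Finset.Ioc (u + 1) v, g m) := by
      rw [← Finset.sum_Ioc_consecutive g (Nat.zero_le u) huv]
      congr 1
      rw [← Finset.sum_Ioc_consecutive g (Nat.le_succ u) h]
      congr 1
      rw [Nat.Ioc_succ_singleton, Finset.sum_singleton]
    rw [e1]
    refine (norm_add_le _ _).trans ?_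
    refine add_le_add le_rfl ?_
    refine (norm_add_le _ _).trans ?_
    have := hg (u + 1)
    linarith

theorem dyad (g : ℕ → ℂ) (hg : ∀ m, ‖g m‖ ≤ 1) (M : ℕ) (I : ℕ) :
    ‖∑ m ∈ Finset.Ioc 0 M, g m‖ ≤
      ∑ i ∈ Finset.range I, (‖∑ m ∈ Finset.Ioc (M / 2 ^ (i + 1) + 1) (M / 2 ^ i), g m‖ + 1) +
        ‖∑ m ∈ Finset.Ioc 0 (M / 2 ^ I), g m‖ := by
  induction I with
  | zero => simp
  | succ I ih =>
    rw [Finset.sum_range_succ]
    have h1 : M / 2 ^ (I + 1) ≤ M / 2 ^ I :=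
      Nat.div_le_div_left (Nat.pow_le_pow_right (by norm_num) (by omega)) (by positivity)
    have h2 := step g hg _ _ h1
    linarith

theorem block_exists (g : ℕ → ℂ) (hg : ∀ m, ‖g m‖ ≤ 1) (M x I : ℕ) (δ : ℝ) (hδ : 0 < δ)
    (hI : 1 ≤ I) (hI2 : 1 / (2 : ℝ) ^ I ≤ δ / 4) (hM : M ≤ x) (hx : 4 * I / δ ≤ x)
    (h : δ * x < ‖∑ m ∈ Finset.Icc 1 M, g m‖) :
    ∃ i ∈ Finset.range I, δ / (2 * I) * x <
      ‖∑ m ∈ Finset.Ioc (M / 2 ^ (i + 1) + 1) (M / 2 ^ i), g m‖ := by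
  by_contra hcon
  push Not at hcon
  have hI0 : (0 : ℝ) < I := by exact_mod_cast hI
  have e : Finset.Icc 1 M = Finset.Ioc 0 M := by
    ext m; simp [Finset.mem_Icc, Finset.mem_Ioc, Nat.succ_le_iff]
  rw [e] at h
  have h1 := dyad g hg M I
  have h2 : ∑ i ∈ Finset.range I,
      (‖∑ m ∈ Finset.Ioc (M / 2 ^ (i + 1) + 1) (M / 2 ^ i), g m‖ + 1) ≤
      ∑ i ∈ Finset.range I, (δ / (2 * I) * x + 1) :=
    Finset.sum_le_sum fun i hi => by linarith [hcon i hi]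
  rw [Finset.sum_const, Finset.card_range, nsmul_eq_mul] at h2
  have h3 : ‖∑ m ∈ Finset.Ioc 0 (M / 2 ^ I), g m‖ ≤ δ / 4 * x := by
    refine (norm_sum_le _ _).trans ?_
    refine (Finset.sum_le_sum fun m _ => hg m).trans ?_
    rw [Finset.sum_const, Nat.card_Ioc, Nat.sub_zero, nsmul_eq_mul, mul_one]
    have h4 : ((M / 2 ^ I : ℕ) : ℝ) ≤ (M : ℝ) / (2 : ℝ) ^ I := by
      have := @Nat.cast_div_le ℝ _ _ _ M (2 ^ I)
      push_cast at this
      exact this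
    refine h4.trans ?_
    have h5 : (M : ℝ) / (2 : ℝ) ^ I = M * (1 / (2 : ℝ) ^ I) := by ring
    rw [h5]
    have h6 : (M : ℝ) ≤ x := by exact_mod_cast hM
    calc (M : ℝ) * (1 / (2 : ℝ) ^ I) ≤ x * (δ / 4) :=
          mul_le_mul h6 hI2 (by positivity) (by positivity)
      _ = δ / 4 * x := by ring
  have h7 : (I : ℝ) * (δ / (2 * I) * x + 1) = δ / 2 * x + I := by
    field_simp
  rw [div_le_iff₀ hδ] at hx
  rw [h7] at h2
  nlinarith

/-- elementary facts about the blocks -/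
theorem block_size (M x P I i : ℕ) (hi : i < I) (hP : 1 ≤ P) (hM : x / P ≤ M)
    (hx : 2 * P * 2 ^ I ≤ x) :
    1 / (4 * (P : ℝ) * 2 ^ I) * x ≤ ((M / 2 ^ (i + 1) + 1 : ℕ) : ℝ) := by
  have h1 : (x : ℝ) / P < (x / P : ℕ) + 1 := by
    have := Nat.lt_floor_add_one ((x : ℝ) / P)
    rwa [Nat.floor_div_natCast, Nat.floor_natCast] at this
  have h2 : (M : ℝ) / 2 ^ (i + 1) < (M / 2 ^ (i + 1) : ℕ) + 1 := by
    have := Nat.lt_floor_add_one ((M : ℝ) / ((2 ^ (i + 1) : ℕ) : ℝ))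
    rw [Nat.floor_div_natCast, Nat.floor_natCast] at this
    push_cast at this ⊢
    exact this
  have h3 : ((x / P : ℕ) : ℝ) ≤ M := by exact_mod_cast hM
  have hP0 : (0 : ℝ) < P := by exact_mod_cast hP
  have hx' : 2 * (P : ℝ) * 2 ^ I ≤ x := by exact_mod_cast hx
  have h4 : (x : ℝ) / (2 * P) ≤ M := by
    have h5 : (1 : ℝ) ≤ x / (2 * P) := by
      rw [le_div_iff₀ (by positivity)]
      have : (1 : ℝ) ≤ 2 ^ I := one_le_pow₀ (by norm_num)
      nlinarith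
    have h6 : (x : ℝ) / P = x / (2 * P) + x / (2 * P) := by
      field_simp
      ring
    linarith
  have h7 : (2 : ℝ) ^ (i + 1) ≤ 2 ^ I := pow_le_pow_right₀ (by norm_num) (by omega)
  have h8 : (M : ℝ) / 2 ^ I ≤ M / 2 ^ (i + 1) :=
    div_le_div_of_nonneg_left (by positivity) (by positivity) h7
  have h9 : (x : ℝ) / (2 * P) / 2 ^ I ≤ M / 2 ^ I := div_le_div_of_nonneg_right h4 (by positivity)
  have h10 : 1 / (4 * (P : ℝ) * 2 ^ I) * x ≤ (x : ℝ) / (2 * P) / 2 ^ I := by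
    rw [div_div, one_div, inv_mul_eq_div]
    refine div_le_div_of_nonneg_left (by positivity) (by positivity) ?_
    nlinarith [pow_pos (show (0 : ℝ) < 2 by norm_num) I]
  push_cast
  linarith

/-- `T_BLK` for one pair of primes and given constants -/
def Blk1 (k : ℕ) (a : Fin k → ℤ) (b : Fin k) (p p' : ℕ) (C δ : ℝ) (K N0 : ℕ) (B c : ℝ) : Prop :=
  ∀ N : ℕ, N0 ≤ N → ∀ x y : ℕ, N ≤ x → x ≤ y → y ≤ 2 * N →
  ∀ (β : ℕ → ℂ) (S : Finset (Pt k)), (∀ m, ‖β m‖ ≤ 1) →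
  (∀ e ∈ S, 1 ≤ e.q ∧ (e.q : ℝ) ≤ (N : ℝ) ^ c ∧ (∀ j, |e.t j| ≤ (N : ℝ) ^ C) ∧
    δ * N < ‖∑ m ∈ Finset.Ioc x y, β m * (W a b e (p * m) * conj (W a b e (p' * m)))‖) →
  (∀ e ∈ S, ∀ e' ∈ S, e ≠ e' → Same e.χ e'.χ →
    ∃ l ∈ Finset.Icc 1 k, B * (N : ℝ) ^ l < |tau a (fun j => e.t j - e'.t j) l|) →
  S.card ≤ K

theorem Blk1.mono {k : ℕ} {a : Fin k → ℤ} {b : Fin k} {p p' : ℕ} {C δ : ℝ} {K N0 K' N0' : ℕ}
    {B c B' c' : ℝ} (h : Blk1 k a b p p' C δ K N0 B c) (hK : K ≤ K') (hN : N0 ≤ N0')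
    (hN1 : 1 ≤ N0') (hB : B ≤ B') (hc : c' ≤ c) : Blk1 k a b p p' C δ K' N0' B' c' := by
  intro N hNN x y h1 h2 h3 β S h4 h5 h6
  have hN1' : (1 : ℝ) ≤ N := by exact_mod_cast hN1.trans hNN
  refine (h N (hN.trans hNN) x y h1 h2 h3 β S h4 ?_ ?_).trans hK
  · intro e he
    obtain ⟨g1, g2, g3, g4⟩ := h5 e he
    exact ⟨g1, g2.trans (Real.rpow_le_rpow_of_exponent_le hN1' hc), g3, g4⟩
  · intro e he e' he' hne hs
    obtain ⟨l, hl, hl2⟩ := h6 e he e' he' hne hs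
    exact ⟨l, hl, lt_of_le_of_lt (mul_le_mul_of_nonneg_right hB (by positivity)) hl2⟩

/-- uniform constants for a finite set of pairs -/
theorem blk_unif (hB : T_BLK) (k : ℕ) (a : Fin k → ℤ) (b : Fin k) (C δ : ℝ)
    (ha : Function.Injective a) (ha0 : ∀ j, a j ≠ 0) (hC : 0 < C) (hδ : 0 < δ)
    (Q : Finset (ℕ × ℕ)) (hQ : ∀ pr ∈ Q, pr.1.Prime ∧ pr.2.Prime ∧ pr.1 ≠ pr.2 ∧
      (∀ j, |a j| < pr.1) ∧ ∀ j, |a j| < pr.2) :
    ∃ (K N0 : ℕ) (B c : ℝ), 0 < c ∧ 1 ≤ N0 ∧ 0 ≤ B ∧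
      ∀ pr ∈ Q, Blk1 k a b pr.1 pr.2 C δ K N0 B c := by
  classical
  induction Q using Finset.induction_on with
  | empty => exact ⟨0, 1, 0, 1, one_pos, le_rfl, le_rfl, by simp⟩
  | insert pr Q hpr ih =>
    obtain ⟨K, N0, B, c, hc, hN, hB0, H⟩ := ih (fun pr' h => hQ pr' (Finset.mem_insert_of_mem h))
    obtain ⟨h1, h2, h3, h4, h5⟩ := hQ pr (Finset.mem_insert_self _ _)
    obtain ⟨K', N0', B', c', hc', H'⟩ := hB k a b pr.1 pr.2 C δ ha ha0 h1 h2 h3 h4 h5 hC hδ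
    refine ⟨max K K', max N0 N0', max B B', min c c', lt_min hc hc', le_max_of_le_left hN,
      le_max_of_le_left hB0, ?_⟩
    intro pr' hpr'
    rcases Finset.mem_insert.mp hpr' with h | h
    · subst h
      exact Blk1.mono H' (le_max_right _ _) (le_max_right _ _) (le_max_of_le_left hN)
        (le_max_right _ _) (min_le_right _ _)
    · exact (H pr' h).mono (le_max_left _ _) (le_max_left _ _) (le_max_of_le_left hN)
        (le_max_left _ _) (min_le_left _ _)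

end Pool.Agent.EllTw.FIN_

namespace Pool.Agent.EllTw

open Finset Filter Pool.Agent.Ell Pool.Agent.Ell.KeyA Pool.Agent.Ell.KeyE Pool.Agent.EllTw.FIN_
open scoped BigOperators ComplexConjugate

theorem p_TW (hK : T_KAT) (hB : T_BLK) : T_TW := by
  classical
  intro k a b C ε ha ha0 hC hε
  obtain ⟨P, δ, X1, hP, hδ, hKat⟩ := hK ε (∑ j, (a j).natAbs) hε
  have haP : ∀ p ∈ P, ∀ j, |a j| < (p : ℤ) := by
    intro p hp j
    have h1 := (hP p hp).2
    have h2 : (a j).natAbs ≤ ∑ j, (a j).natAbs :=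
      Finset.single_le_sum (f := fun j => (a j).natAbs) (fun _ _ => Nat.zero_le _)
        (Finset.mem_univ j)
    have h3 : |a j| = ((a j).natAbs : ℤ) := Int.abs_eq_natAbs _
    rw [h3]
    exact_mod_cast lt_of_le_of_lt h2 h1
  -- the number of blocks
  obtain ⟨I, hI1, hI2⟩ : ∃ I : ℕ, 1 ≤ I ∧ 1 / (2 : ℝ) ^ I ≤ δ / 4 := by
    obtain ⟨n, hn⟩ := exists_pow_lt_of_lt_one (show (0 : ℝ) < δ / 4 by positivity)
      (show (1 / 2 : ℝ) < 1 by norm_num)
    refine ⟨n + 1, by omega, ?_⟩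
    rw [one_div_pow] at hn
    refine le_trans ?_ hn.le
    exact one_div_le_one_div_of_le (by positivity) (pow_le_pow_right₀ (by norm_num) (by omega))
  have hI0 : (0 : ℝ) < I := by exact_mod_cast hI1
  set δ' := δ / (2 * I) with hδ'
  have hδ'0 : 0 < δ' := by positivity
  set Q := (P ×ˢ P).filter (fun pr => pr.1 ≠ pr.2) with hQ
  obtain ⟨K, N0, B, c, hc, hN0, hB0, HB⟩ := blk_unif hB k a b (2 * C) δ' ha ha0 (by positivity)
    hδ'0 Q (by
      intro pr hpr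
      rw [hQ, Finset.mem_filter, Finset.mem_product] at hpr
      exact ⟨(hP _ hpr.1.1).1, (hP _ hpr.1.2).1, hpr.2, haP _ hpr.1.1, haP _ hpr.1.2⟩)
  set Pm := ∑ p ∈ P, p + 1 with hPm
  have hPle : ∀ p ∈ P, p ≤ Pm := fun p hp =>
    (Finset.single_le_sum (f := fun p => p) (fun _ _ => Nat.zero_le _) hp).trans (Nat.le_succ _)
  have hPm1 : 1 ≤ Pm := by omega
  set κ : ℝ := 1 / (4 * (Pm : ℝ) * 2 ^ I) with hκ
  have hPm0 : (0 : ℝ) < Pm := by exact_mod_cast hPm1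
  have hκ0 : 0 < κ := by positivity
  obtain ⟨X2, hX2⟩ := eventually_atTop.mp (large_x κ C hκ0 hC N0)
  obtain ⟨X3, hX3⟩ := eventually_atTop.mp (large_x κ (c / 2) hκ0 (by positivity) N0)
  refine ⟨K * (Q ×ˢ Finset.range I).card, max X1 (max X2 (max X3 (max (2 * Pm * 2 ^ I)
    ⌈4 * I / δ⌉₊))), B, c / 2, by positivity, ?_⟩
  intro x hx D hD S hS hsep
  have hxX1 : X1 ≤ x := (le_max_left _ _).trans hx
  have hx' := (le_max_right _ _).trans hx
  have hxX2 : X2 ≤ x := (le_max_left _ _).trans hx'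
  have hx'' := (le_max_right _ _).trans hx'
  have hxX3 : X3 ≤ x := (le_max_left _ _).trans hx''
  have hx3 := (le_max_right _ _).trans hx''
  have hx4 : 2 * Pm * 2 ^ I ≤ x := (le_max_left _ _).trans hx3
  have hx5 : 4 * (I : ℝ) / δ ≤ x := (Nat.le_ceil _).trans (by
    exact_mod_cast (le_max_right _ _).trans hx3)
  have hx1 : 1 ≤ x := (hX2 x hxX2).1
  have hx1' : (1 : ℝ) ≤ x := by exact_mod_cast hx1
  -- the part of `S` for a pair of primes and a block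
  let lo : ℕ × ℕ → ℕ → ℕ := fun pr i => x / max pr.1 pr.2 / 2 ^ (i + 1) + 1
  let hi : ℕ × ℕ → ℕ → ℕ := fun pr i => x / max pr.1 pr.2 / 2 ^ i
  let β : ℕ × ℕ → ℕ → ℂ := fun pr m => D (pr.1 * m) * conj (D (pr.2 * m))
  let T : (ℕ × ℕ) × ℕ → Finset (Pt k) := fun z => S.filter (fun e =>
    δ' * x < ‖∑ m ∈ Finset.Ioc (lo z.1 z.2) (hi z.1 z.2),
      β z.1 m * (W a b e (z.1.1 * m) * conj (W a b e (z.1.2 * m)))‖)
  have hcov : S ⊆ (Q ×ˢ Finset.range I).biUnion T := by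
    intro e he
    obtain ⟨g1, g2, g3, f, hf, hbad⟩ := hS e he
    have hH : ∀ n, ‖D n * W a b e n‖ ≤ 1 := by
      intro n
      rw [norm_mul]
      exact mul_le_one₀ (hD n) (norm_nonneg _) (norm_W a b e n)
    have hex : ∃ p ∈ P, ∃ q ∈ P, p ≠ q ∧ δ * x < ‖∑ m ∈ Finset.Icc 1 (x / max p q),
        (D (p * m) * W a b e (p * m)) * conj (D (q * m) * W a b e (q * m))‖ := by
      by_contra hcon
      push Not at hcon
      have := hKat x hxX1 f (fun n => D n * W a b e n) hf hH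
        (fun p hp q hq hpq => hcon p hp q hq hpq)
      linarith
    obtain ⟨p, hp, q, hq, hpq, hlarge⟩ := hex
    have hM : x / max p q ≤ x := Nat.div_le_self _ _
    obtain ⟨i, hi', hib⟩ := block_exists (fun m => (D (p * m) * W a b e (p * m)) *
      conj (D (q * m) * W a b e (q * m))) (by
        intro m
        rw [norm_mul, RCLike.norm_conj]
        exact mul_le_one₀ (hH _) (norm_nonneg _) (hH _)) (x / max p q) x I δ hδ hI1 hI2 hM hx5
        hlarge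
    rw [Finset.mem_biUnion]
    refine ⟨((p, q), i), ?_, ?_⟩
    · rw [Finset.mem_product, hQ, Finset.mem_filter, Finset.mem_product]
      exact ⟨⟨⟨hp, hq⟩, hpq⟩, hi'⟩
    · rw [Finset.mem_filter]
      refine ⟨he, ?_⟩
      have e1 : ∑ m ∈ Finset.Ioc (x / max p q / 2 ^ (i + 1) + 1) (x / max p q / 2 ^ i),
          (D (p * m) * W a b e (p * m)) * conj (D (q * m) * W a b e (q * m)) =
          ∑ m ∈ Finset.Ioc (lo (p, q) i) (hi (p, q) i),
            β (p, q) m * (W a b e (p * m) * conj (W a b e (q * m))) := by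
        refine Finset.sum_congr rfl (fun m _ => ?_)
        simp only [β, map_mul]
        ring
      rw [← e1]
      exact hib
  refine (Finset.card_le_card hcov).trans ?_
  refine Finset.card_biUnion_le_card_mul _ _ _ (fun z hz => ?_) |>.trans (by rw [mul_comm])
  obtain ⟨⟨p, q⟩, i⟩ := z
  rw [Finset.mem_product, hQ, Finset.mem_filter, Finset.mem_product] at hz
  obtain ⟨⟨⟨hp, hq⟩, hpq⟩, hi'⟩ := hz
  simp only at hp hq hpq hi'
  rw [Finset.mem_range] at hi'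
  rcases (T ((p, q), i)).eq_empty_or_nonempty with hemp | hne
  · rw [hemp]
    simp
  have hpm : 1 ≤ max p q := (hP p hp).1.one_le.trans (le_max_left _ _)
  have hpm2 : max p q ≤ Pm := max_le (hPle p hp) (hPle q hq)
  have hlo : κ * x ≤ (lo (p, q) i : ℝ) := by
    refine block_size (x / max p q) x Pm I i hi' hPm1 ?_ hx4
    exact Nat.div_le_div_left hpm2 hpm
  obtain ⟨-, hX2'⟩ := hX2 x hxX2
  obtain ⟨-, hX3'⟩ := hX3 x hxX3
  obtain ⟨m1, m2, m3⟩ := hX2' _ hlo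
  obtain ⟨m4, m5, m6⟩ := hX3' _ hlo
  have hhl : hi (p, q) i ≤ 2 * lo (p, q) i := by
    change x / max p q / 2 ^ i ≤ 2 * (x / max p q / 2 ^ (i + 1) + 1)
    have : x / max p q / 2 ^ (i + 1) = x / max p q / 2 ^ i / 2 := by
      rw [Nat.div_div_eq_div_mul (x / max p q), pow_succ]
    rw [this]
    omega
  have hlh : lo (p, q) i ≤ hi (p, q) i := by
    obtain ⟨e, he⟩ := hne
    by_contra hcon
    push Not at hcon
    rw [Finset.mem_filter] at he
    have h1 := he.2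
    simp only at h1
    rw [Finset.Ioc_eq_empty_of_le hcon.le, Finset.sum_empty, norm_zero] at h1
    have : 0 ≤ δ' * x := by positivity
    linarith
  have hlox : lo (p, q) i ≤ x := hlh.trans ((Nat.div_le_self _ _).trans (Nat.div_le_self _ _))
  have hlox' : ((lo (p, q) i : ℕ) : ℝ) ≤ x := by exact_mod_cast hlox
  refine HB (p, q) (by
    rw [hQ, Finset.mem_filter, Finset.mem_product]
    exact ⟨⟨hp, hq⟩, hpq⟩) (lo (p, q) i) m1 (lo (p, q) i) (hi (p, q) i) le_rfl hlh hhl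
    (β (p, q)) (T ((p, q), i)) ?_ ?_ ?_
  · intro m
    change ‖D (p * m) * conj (D (q * m))‖ ≤ 1
    rw [norm_mul, RCLike.norm_conj]
    exact mul_le_one₀ (hD _) (norm_nonneg _) (hD _)
  · intro e he
    rw [Finset.mem_filter] at he
    obtain ⟨g1, g2, g3, -⟩ := hS e he.1
    refine ⟨g1, ?_, fun j => (g3 j).trans m2, ?_⟩
    · refine g2.trans (m5.trans (le_of_eq ?_))
      congr 1
      ring
    · refine lt_of_le_of_lt ?_ he.2
      exact mul_le_mul_of_nonneg_left hlox' hδ'0.le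
  · intro e he e' he' hne' hsame
    rw [Finset.mem_filter] at he he'
    obtain ⟨l, hl, hl2⟩ := hsep e he.1 e' he'.1 hne' hsame
    refine ⟨l, hl, lt_of_le_of_lt ?_ hl2⟩
    refine mul_le_mul_of_nonneg_left ?_ hB0
    exact pow_le_pow_left₀ (by positivity) hlox' l

end Pool.Agent.EllTw
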