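import Pool.Agent.EllTw.Targets

set_option autoImplicit false

/-! Job TW-RAM: the autocorrelation of a primitive character is bounded. -/

namespace Pool.Agent.EllTw

open Finset Filter Pool.Agent.Ell
open scoped BigOperators ComplexConjugate

namespace RAM_

/-- the standard additive character -/
noncomputable abbrev e (r : ℕ) [NeZero r] : AddChar (ZMod r) ℂ := ZMod.stdAddChar (N := r)

lemma geom {r d r' : ℕ} [NeZero r] (hr : r = d * r') (h : ℤ) :
    ‖∑ j ∈ range r', e r (((d * j : ℕ) : ZMod r) * (h : ZMod r))‖ ≤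
      if (r' : ℤ) ∣ h then (r' : ℝ) else 0 := by
  split_ifs with hd
  · calc ‖∑ j ∈ range r', e r (((d * j : ℕ) : ZMod r) * (h : ZMod r))‖
        ≤ ∑ j ∈ range r', ‖e r (((d * j : ℕ) : ZMod r) * (h : ZMod r))‖ := norm_sum_le _ _
      _ = r' := by simp [AddChar.norm_apply]
  · set z : ℂ := e r ((d : ZMod r) * (h : ZMod r)) with hz
    have h1 : ∀ j : ℕ, e r (((d * j : ℕ) : ZMod r) * (h : ZMod r)) = z ^ j := by
      intro j
      rw [hz, ← AddChar.map_nsmul_eq_pow]
      congr 1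
      rw [nsmul_eq_mul]
      push_cast
      ring
    have hd0 : (d : ℤ) ≠ 0 := by
      intro h0
      have : d = 0 := by exact_mod_cast h0
      rw [this, zero_mul] at hr
      exact NeZero.ne r hr
    have h2 : z ≠ 1 := by
      intro h3
      have h4 : e r ((d : ZMod r) * (h : ZMod r)) = e r 0 := by
        rw [AddChar.map_zero_eq_one]
        exact h3
      have h5 := ZMod.injective_stdAddChar h4
      have h6 : (((d : ℤ) * h : ℤ) : ZMod r) = 0 := by
        push_cast
        exact h5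
      rw [ZMod.intCast_zmod_eq_zero_iff_dvd, hr] at h6
      push_cast at h6
      exact hd ((mul_dvd_mul_iff_left hd0).mp h6)
    have h3 : z ^ r' = 1 := by
      rw [← h1]
      have : ((d * r' : ℕ) : ZMod r) = 0 := by
        rw [← hr]
        exact ZMod.natCast_self r
      rw [this, zero_mul, AddChar.map_zero_eq_one]
    have h4 : (∑ j ∈ range r', z ^ j) * (z - 1) = 0 := by
      rw [geom_sum_mul, h3, sub_self]
    have h5 : ∑ j ∈ range r', z ^ j = 0 := by
      rcases mul_eq_zero.mp h4 with h6 | h6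
      · exact h6
      · exact absurd (sub_eq_zero.mp h6) h2
    simp only [h1, h5, norm_zero, le_refl]

lemma mob {n : ℕ} :
    ∑ d ∈ n.divisors, (ArithmeticFunction.moebius d : ℂ) = if n = 1 then 1 else 0 := by
  have h1 := congrArg (fun f => f n) ArithmeticFunction.moebius_mul_coe_zeta
  simp only [ArithmeticFunction.coe_mul_zeta_apply, ArithmeticFunction.one_apply] at h1
  exact_mod_cast congrArg (fun z : ℤ => (z : ℂ)) h1

/-- Ramanujan sums are bounded -/
lemma ram {r : ℕ} [NeZero r] {h : ℤ} (hh : h ≠ 0) :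
    ‖∑ b ∈ range r, if b.Coprime r then e r ((b : ZMod r) * (h : ZMod r)) else 0‖ ≤
      ((h.natAbs : ℝ) + 1) ^ 2 := by
  have hr0 : r ≠ 0 := NeZero.ne r
  have h1 : ∑ b ∈ range r, (if b.Coprime r then e r ((b : ZMod r) * (h : ZMod r)) else 0) =
      ∑ d ∈ r.divisors, (ArithmeticFunction.moebius d : ℂ) *
        ∑ j ∈ range (r / d), e r (((d * j : ℕ) : ZMod r) * (h : ZMod r)) := by
    have h2 : ∀ b ∈ range r, (if b.Coprime r then e r ((b : ZMod r) * (h : ZMod r)) else 0) =
        ∑ d ∈ r.divisors, if d ∣ b then (ArithmeticFunction.moebius d : ℂ) *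
          e r ((b : ZMod r) * (h : ZMod r)) else 0 := by
      intro b _
      have hg : b.gcd r ≠ 0 := Nat.gcd_ne_zero_right hr0
      have h3 : ∑ d ∈ r.divisors, (if d ∣ b then (ArithmeticFunction.moebius d : ℂ) else 0) =
          if b.Coprime r then 1 else 0 := by
        rw [← Finset.sum_filter]
        have h4 : r.divisors.filter (fun d => d ∣ b) = (b.gcd r).divisors := by
          ext d
          simp only [Finset.mem_filter, Nat.mem_divisors, Nat.dvd_gcd_iff]
          constructor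
          · rintro ⟨⟨h5, _⟩, h6⟩
            exact ⟨⟨h6, h5⟩, hg⟩
          · rintro ⟨⟨h5, h6⟩, _⟩
            exact ⟨⟨h6, hr0⟩, h5⟩
        rw [h4, mob]
      have h5 : ∀ d ∈ r.divisors, (if d ∣ b then (ArithmeticFunction.moebius d : ℂ) *
          e r ((b : ZMod r) * (h : ZMod r)) else 0) =
          (if d ∣ b then (ArithmeticFunction.moebius d : ℂ) else 0) *
            e r ((b : ZMod r) * (h : ZMod r)) := by
        intro d _
        split_ifs <;> simp
      rw [Finset.sum_congr rfl h5, ← Finset.sum_mul, h3]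
      split_ifs <;> simp
    rw [Finset.sum_congr rfl h2, Finset.sum_comm]
    refine Finset.sum_congr rfl fun d hd => ?_
    have hdr : d ∣ r := Nat.dvd_of_mem_divisors hd
    have hd0 : 0 < d := Nat.pos_of_mem_divisors hd
    rw [Finset.mul_sum, ← Finset.sum_filter]
    symm
    refine Finset.sum_bij (fun j _ => d * j) ?_ ?_ ?_ ?_
    · intro j hj
      rw [Finset.mem_filter, Finset.mem_range]
      refine ⟨?_, Dvd.intro _ rfl⟩
      rw [Finset.mem_range] at hj
      calc d * j < d * (r / d) := (Nat.mul_lt_mul_left hd0).mpr hj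
        _ = r := Nat.mul_div_cancel' hdr
    · intro j _ j' _ hjj
      exact Nat.eq_of_mul_eq_mul_left hd0 hjj
    · intro b hb
      rw [Finset.mem_filter, Finset.mem_range] at hb
      obtain ⟨hb1, ⟨j, rfl⟩⟩ := hb
      refine ⟨j, ?_, rfl⟩
      rw [Finset.mem_range, Nat.lt_div_iff_mul_lt' hdr]
      exact hb1
    · intro j _
      rfl
  rw [h1]
  have h6 : ∀ d ∈ r.divisors, ‖(ArithmeticFunction.moebius d : ℂ) *
      ∑ j ∈ range (r / d), e r (((d * j : ℕ) : ZMod r) * (h : ZMod r))‖ ≤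
      if ((r / d : ℕ) : ℤ) ∣ h then ((r / d : ℕ) : ℝ) else 0 := by
    intro d hd
    rw [norm_mul]
    have h7 : ‖(ArithmeticFunction.moebius d : ℂ)‖ ≤ 1 := by
      rw [Complex.norm_intCast]
      exact_mod_cast ArithmeticFunction.abs_moebius_le_one
    have h8 := geom (r := r) (d := d) (r' := r / d)
      (Nat.mul_div_cancel' (Nat.dvd_of_mem_divisors hd)).symm h
    calc _ ≤ 1 * _ := mul_le_mul h7 h8 (norm_nonneg _) zero_le_one
      _ = _ := one_mul _
  refine (norm_sum_le _ _).trans ((Finset.sum_le_sum h6).trans ?_)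
  rw [Nat.sum_div_divisors r (fun d => if (d : ℤ) ∣ h then (d : ℝ) else 0), ← Finset.sum_filter]
  have h9 : r.divisors.filter (fun d : ℕ => (d : ℤ) ∣ h) ⊆ range (h.natAbs + 1) := by
    intro d hd
    rw [Finset.mem_filter] at hd
    rw [Finset.mem_range]
    have := Nat.le_of_dvd (Int.natAbs_pos.mpr hh) (Int.natCast_dvd.mp hd.2)
    omega
  refine (Finset.sum_le_sum_of_subset_of_nonneg h9 (fun _ _ _ => Nat.cast_nonneg _)).trans ?_
  calc ∑ d ∈ range (h.natAbs + 1), (d : ℝ) ≤ ∑ d ∈ range (h.natAbs + 1), ((h.natAbs : ℝ) + 1) := by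
        refine Finset.sum_le_sum fun d hd => ?_
        rw [Finset.mem_range] at hd
        have : (d : ℝ) < ((h.natAbs + 1 : ℕ) : ℝ) := by exact_mod_cast hd
        push_cast at this
        exact this.le
    _ = ((h.natAbs : ℝ) + 1) ^ 2 := by
        rw [Finset.sum_const, Finset.card_range, nsmul_eq_mul]
        push_cast
        ring

lemma sum_range_zmod {r : ℕ} [NeZero r] (F : ZMod r → ℂ) :
    ∑ m ∈ range r, F (m : ZMod r) = ∑ x : ZMod r, F x := by
  refine Finset.sum_nbij' (fun m => (m : ZMod r)) (fun x => x.val) ?_ ?_ ?_ ?_ ?_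
  · intro m _
    exact Finset.mem_univ _
  · intro x _
    rw [Finset.mem_range]
    exact ZMod.val_lt x
  · intro m hm
    rw [Finset.mem_range] at hm
    exact ZMod.val_cast_of_lt hm
  · intro x _
    exact ZMod.natCast_zmod_val x
  · intro m _
    rfl

/-- the Gauss sum -/
noncomputable def G {r : ℕ} [NeZero r] (ψ : DirichletCharacter ℂ r) : ℂ := gaussSum ψ⁻¹ (e r)

lemma gs {r : ℕ} [NeZero r] {ψ : DirichletCharacter ℂ r} (hψ : ψ.IsPrimitive) (x : ZMod r) :
    ψ x * G ψ = ∑ b : ZMod r, ψ⁻¹ b * e r (x * b) := by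
  have h1 : (ψ⁻¹).IsPrimitive := by
    unfold DirichletCharacter.IsPrimitive
    rw [DirichletCharacter.conductor_inv]
    exact hψ
  have h2 := gaussSum_mulShift_of_isPrimitive (e r) h1 x
  rw [inv_inv] at h2
  unfold G
  rw [← h2]
  unfold gaussSum
  refine Finset.sum_congr rfl fun b _ => ?_
  rw [AddChar.mulShift_apply]

lemma key {r : ℕ} [NeZero r] {ψ : DirichletCharacter ℂ r} (hψ : ψ.IsPrimitive)
    (α β a : ZMod r) :
    (G ψ * conj (G ψ)) * ∑ m : ZMod r, ψ (α * m + a) * conj (ψ (β * m + a)) =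
      r * ∑ b : ZMod r, ∑ c : ZMod r, if b * α = c * β then
        ψ⁻¹ b * conj (ψ⁻¹ c) * e r ((b - c) * a) else 0 := by
  have h1 : (G ψ * conj (G ψ)) * ∑ m : ZMod r, ψ (α * m + a) * conj (ψ (β * m + a)) =
      ∑ m : ZMod r, (ψ (α * m + a) * G ψ) * conj (ψ (β * m + a) * G ψ) := by
    rw [Finset.mul_sum]
    refine Finset.sum_congr rfl fun m _ => ?_
    rw [map_mul]
    ring
  rw [h1]
  have h2 : ∀ m : ZMod r, (ψ (α * m + a) * G ψ) * conj (ψ (β * m + a) * G ψ) =
      ∑ b : ZMod r, ∑ c : ZMod r, (ψ⁻¹ b * conj (ψ⁻¹ c) * e r ((b - c) * a)) *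
        e r (m * (b * α - c * β)) := by
    intro m
    rw [gs hψ, gs hψ, map_sum, Finset.sum_mul_sum]
    refine Finset.sum_congr rfl fun b _ => Finset.sum_congr rfl fun c _ => ?_
    rw [map_mul (starRingEnd ℂ), ← AddChar.map_neg_eq_conj]
    have h3 : e r ((α * m + a) * b) * e r (-((β * m + a) * c)) =
        e r ((b - c) * a) * e r (m * (b * α - c * β)) := by
      rw [← AddChar.map_add_eq_mul, ← AddChar.map_add_eq_mul]
      congr 1
      ring
    calc _ = ψ⁻¹ b * conj (ψ⁻¹ c) * (e r ((α * m + a) * b) * e r (-((β * m + a) * c))) := by ring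
      _ = _ := by
        rw [h3]
        ring
  rw [Finset.sum_congr rfl (fun m _ => h2 m), Finset.sum_comm, Finset.mul_sum]
  refine Finset.sum_congr rfl fun b _ => ?_
  rw [Finset.sum_comm, Finset.mul_sum]
  refine Finset.sum_congr rfl fun c _ => ?_
  rw [← Finset.mul_sum, AddChar.sum_mulShift _ (ZMod.isPrimitive_stdAddChar r)]
  by_cases h : b * α = c * β
  · rw [if_pos h, if_pos (sub_eq_zero.mpr h), ZMod.card]
    ring
  · rw [if_neg h, if_neg (fun h' => h (sub_eq_zero.mp h'))]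
    push_cast
    ring

lemma conj_eq_inv {r : ℕ} (ψ : DirichletCharacter ℂ r) (z : ZMod r) :
    conj (ψ z) = ψ⁻¹ z := by
  rw [← MulChar.star_eq_inv]
  rfl

lemma GG {r : ℕ} [NeZero r] {ψ : DirichletCharacter ℂ r} (hψ : ψ.IsPrimitive) :
    G ψ * conj (G ψ) = r := by
  have h1 := key hψ 1 1 0
  have h2 : ∑ b : ZMod r, ∑ c : ZMod r, (if b * 1 = c * 1 then
        ψ⁻¹ b * conj (ψ⁻¹ c) * e r ((b - c) * 0) else 0) =
      ∑ b : ZMod r, ψ b * conj (ψ b) := by
    refine Finset.sum_congr rfl fun b _ => ?_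
    simp only [mul_one, mul_zero, AddChar.map_zero_eq_one, Finset.sum_ite_eq, Finset.mem_univ,
      if_true]
    rw [← conj_eq_inv, Complex.conj_conj, mul_comm]
  have h3 : ∑ m : ZMod r, ψ (1 * m + 0) * conj (ψ (1 * m + 0)) =
      ∑ b : ZMod r, ψ b * conj (ψ b) := by
    simp only [one_mul, add_zero]
  rw [h2, h3] at h1
  have h4 : ∑ b : ZMod r, ψ b * conj (ψ b) ≠ 0 := by
    have h5 : ∑ b : ZMod r, ψ b * conj (ψ b) = ((∑ b : ZMod r, ‖ψ b‖ ^ 2 : ℝ) : ℂ) := by
      push_cast
      refine Finset.sum_congr rfl fun b _ => ?_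
      rw [Complex.mul_conj, Complex.normSq_eq_norm_sq]
      push_cast
      rfl
    rw [h5]
    have h6 : (0 : ℝ) < ∑ b : ZMod r, ‖ψ b‖ ^ 2 := by
      refine Finset.sum_pos' (fun b _ => by positivity) ⟨1, Finset.mem_univ _, ?_⟩
      rw [map_one]
      norm_num
    exact_mod_cast h6.ne'
  exact mul_right_cancel₀ h4 h1

/-- the correlation as a sum over a hyperplane -/
lemma cor {r : ℕ} [NeZero r] {ψ : DirichletCharacter ℂ r} (hψ : ψ.IsPrimitive)
    (α β a : ZMod r) :
    ∑ m : ZMod r, ψ (α * m + a) * conj (ψ (β * m + a)) =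
      ∑ b : ZMod r, ∑ c : ZMod r, if b * α = c * β then
        ψ⁻¹ b * conj (ψ⁻¹ c) * e r ((b - c) * a) else 0 := by
  have h1 := key hψ α β a
  rw [GG hψ] at h1
  have : (r : ℂ) ≠ 0 := by exact_mod_cast NeZero.ne r
  exact mul_left_cancel₀ this h1

/-- primes: a common multiple has a nonunit factor -/
lemma nonunit {r : ℕ} {p p' : ℕ} (hp : p.Prime) (hp' : p'.Prime) (hne : p ≠ p') (hpr : p ∣ r)
    {b c : ZMod r} (h : b * (p : ZMod r) = c * (p' : ZMod r)) : ¬ IsUnit c := by
  rintro hc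
  have h1 : ZMod.castHom hpr (ZMod p) (b * (p : ZMod r)) =
      ZMod.castHom hpr (ZMod p) (c * (p' : ZMod r)) := by rw [h]
  rw [map_mul, map_mul, map_natCast, map_natCast, ZMod.natCast_self, mul_zero] at h1
  have : Fact p.Prime := ⟨hp⟩
  have h2 : IsUnit (ZMod.castHom hpr (ZMod p) c) := hc.map _
  have h3 : (p' : ZMod p) = 0 := by
    rcases mul_eq_zero.mp h1.symm with h4 | h4
    · exact absurd h4 h2.ne_zero
    · exact h4
  rw [ZMod.natCast_eq_zero_iff] at h3
  exact hne ((Nat.prime_dvd_prime_iff_eq hp hp').mp h3)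

lemma main {r : ℕ} [NeZero r] {ψ : DirichletCharacter ℂ r} (hψ : ψ.IsPrimitive)
    (a : ℤ) (p p' : ℕ) (ha : a ≠ 0) (hp : p.Prime) (hp' : p'.Prime) (hne : p ≠ p') :
    ‖∑ m : ZMod r, ψ ((p : ZMod r) * m + a) * conj (ψ ((p' : ZMod r) * m + a))‖ ≤
      (((a * ((p' : ℤ) - p)).natAbs : ℝ) + 1) ^ 2 := by
  have hh : a * ((p' : ℤ) - p) ≠ 0 := by
    refine mul_ne_zero ha (sub_ne_zero.mpr ?_)
    exact_mod_cast hne.symm
  rw [cor hψ]
  by_cases hpr : p ∣ r
  · rw [Finset.sum_eq_zero, norm_zero]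
    · positivity
    · intro b _
      refine Finset.sum_eq_zero fun c _ => ?_
      split_ifs with h
      · rw [MulChar.map_nonunit _ (nonunit hp hp' hne hpr h)]
        simp
      · rfl
  by_cases hpr' : p' ∣ r
  · rw [Finset.sum_eq_zero, norm_zero]
    · positivity
    · intro b _
      refine Finset.sum_eq_zero fun c _ => ?_
      split_ifs with h
      · rw [MulChar.map_nonunit (ψ⁻¹) (nonunit hp' hp hne.symm hpr' h.symm)]
        simp
      · rfl
  have hu : IsUnit (p : ZMod r) := (ZMod.isUnit_iff_coprime p r).mpr ((Nat.Prime.coprime_iff_not_dvd hp).mpr hpr)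
  have hu' : IsUnit (p' : ZMod r) := (ZMod.isUnit_iff_coprime p' r).mpr ((Nat.Prime.coprime_iff_not_dvd hp').mpr hpr')
  obtain ⟨u, hu⟩ := hu
  obtain ⟨u', hu'⟩ := hu'
  -- substitute `b = p' b'`
  have h1 : ∀ b : ZMod r, (∑ c : ZMod r, if ((u' : ZMod r) * b) * (p : ZMod r) = c * (p' : ZMod r) then
        ψ⁻¹ ((u' : ZMod r) * b) * conj (ψ⁻¹ c) * e r (((u' : ZMod r) * b - c) * a) else 0) =
      (ψ⁻¹ (u' : ZMod r) * conj (ψ⁻¹ (u : ZMod r))) *
        (if IsUnit b then e r (b * ((a * ((p' : ℤ) - p) : ℤ) : ZMod r)) else 0) := by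
    intro b
    have h2 : ∀ c : ZMod r, ((u' : ZMod r) * b) * (p : ZMod r) = c * (p' : ZMod r) ↔
        c = (u : ZMod r) * b := by
      intro c
      rw [← hu, ← hu']
      constructor
      · intro h3
        have h4 : (u' : ZMod r) * ((u : ZMod r) * b) = (u' : ZMod r) * c := by linear_combination h3
        exact ((Units.mul_right_inj u').mp h4).symm
      · rintro rfl
        ring
    simp only [h2, Finset.sum_ite_eq', Finset.mem_univ, if_true]
    have h5 : ((u' : ZMod r) * b - (u : ZMod r) * b) * (a : ZMod r) =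
        b * ((a * ((p' : ℤ) - p) : ℤ) : ZMod r) := by
      push_cast
      rw [hu, hu']
      ring
    rw [h5, map_mul, map_mul, map_mul]
    split_ifs with hb
    · have h6 : ψ⁻¹ b * conj (ψ⁻¹ b) = 1 := by
        have h12 : ‖ψ⁻¹ b‖ = 1 := by
          obtain ⟨v, rfl⟩ := hb
          exact DirichletCharacter.unit_norm_eq_one _ v
        rw [Complex.mul_conj, Complex.normSq_eq_norm_sq, h12]
        norm_num
      linear_combination (ψ⁻¹ (u' : ZMod r) * conj (ψ⁻¹ (u : ZMod r)) *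
        e r (b * ((a * ((p' : ℤ) - p) : ℤ) : ZMod r))) * h6
    · rw [MulChar.map_nonunit _ hb]
      simp
  have h7 : ∑ b : ZMod r, (∑ c : ZMod r, if b * (p : ZMod r) = c * (p' : ZMod r) then
        ψ⁻¹ b * conj (ψ⁻¹ c) * e r ((b - c) * a) else 0) =
      ∑ b : ZMod r, (∑ c : ZMod r, if ((u' : ZMod r) * b) * (p : ZMod r) = c * (p' : ZMod r) then
        ψ⁻¹ ((u' : ZMod r) * b) * conj (ψ⁻¹ c) * e r (((u' : ZMod r) * b - c) * a) else 0) :=
    (Fintype.sum_bijective (fun b : ZMod r => (u' : ZMod r) * b) (Units.mulLeft_bijective u') _ _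
      (fun b => rfl)).symm
  rw [h7, Finset.sum_congr rfl (fun b _ => h1 b), ← Finset.mul_sum, norm_mul]
  have h8 : ‖ψ⁻¹ (u' : ZMod r) * conj (ψ⁻¹ (u : ZMod r))‖ ≤ 1 := by
    rw [norm_mul, RCLike.norm_conj]
    exact mul_le_one₀ (DirichletCharacter.norm_le_one _ _) (norm_nonneg _) (DirichletCharacter.norm_le_one _ _)
  have h9 : ‖∑ b : ZMod r, (if IsUnit b then e r (b * ((a * ((p' : ℤ) - p) : ℤ) : ZMod r)) else 0)‖ ≤
      (((a * ((p' : ℤ) - p)).natAbs : ℝ) + 1) ^ 2 := by
    rw [← sum_range_zmod]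
    have h10 := ram (r := r) hh
    have h11 : ∀ b : ℕ, (if IsUnit (b : ZMod r) then
          e r ((b : ZMod r) * ((a * ((p' : ℤ) - p) : ℤ) : ZMod r)) else 0) =
        if b.Coprime r then e r ((b : ZMod r) * ((a * ((p' : ℤ) - p) : ℤ) : ZMod r)) else 0 := by
      intro b
      simp only [ZMod.isUnit_iff_coprime]
    simp only [h11]
    exact h10
  calc _ ≤ 1 * _ := mul_le_mul h8 h9 (norm_nonneg _) zero_le_one
    _ = _ := one_mul _

end RAM_

/-- job TW-RAM -/
theorem p_RAM : T_RAM := by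
  intro a p p' ha hp hp' hne
  refine ⟨(((a * ((p' : ℤ) - p)).natAbs : ℝ) + 1) ^ 2, ?_⟩
  intro r ψ hr hψ
  have : NeZero r := ⟨by omega⟩
  have h1 := RAM_.main hψ a p p' ha hp hp' hne
  rw [← RAM_.sum_range_zmod] at h1
  refine le_trans (le_of_eq ?_) h1
  congr 1
  refine Finset.sum_congr rfl fun m _ => ?_
  unfold ch
  push_cast
  rfl

end Pool.Agent.EllTw
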