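import Pool.Agent.Ell.Targets2

set_option autoImplicit false

/-! Elliott's conjecture for all but boundedly many twists (MP_f3f922_nt): definitions, targets. -/

namespace Pool.Agent.EllTw

open Finset Filter Pool.Agent.Ell
open scoped BigOperators ComplexConjugate

/-- a twist: a Dirichlet character and exponents -/
structure Pt (k : ℕ) : Type where
  q : ℕ
  χ : DirichletCharacter ℂ q
  t : Fin k → ℝ

/-- `χ(n + a)` -/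
noncomputable def ch {q : ℕ} (χ : DirichletCharacter ℂ q) (a : ℤ) (n : ℕ) : ℂ :=
  χ (((n : ℤ) + a : ℤ) : ZMod q)

/-- the two characters are induced by the same primitive character -/
def Same {q q' : ℕ} (χ : DirichletCharacter ℂ q) (χ' : DirichletCharacter ℂ q') : Prop :=
  ∀ n : ℕ, n.Coprime (q * q') → χ n = χ' n

/-- the twist function `χ(n + a_b) ∏ (n + a_j)^{i t_j}` -/
noncomputable def W {k : ℕ} (a : Fin k → ℤ) (b : Fin k) (e : Pt k) (n : ℕ) : ℂ :=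
  ch e.χ (a b) n * ph a e.t n

/-- autocorrelation of a primitive character: `∑ ψ(pm + a) conj ψ(p'm + a)` is bounded -/
def T_RAM : Prop := ∀ (a : ℤ) (p p' : ℕ), a ≠ 0 → p.Prime → p'.Prime → p ≠ p' →
  ∃ K : ℝ, ∀ (r : ℕ) (ψ : DirichletCharacter ℂ r), 1 ≤ r → ψ.IsPrimitive →
  ‖∑ m ∈ Finset.range r, ch ψ a (p * m) * conj (ch ψ a (p' * m))‖ ≤ K

/-- the mean of `(χ conj χ')(pm + a) conj (χ conj χ')(p'm + a)` is small, unless `χ conj χ'` agrees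
with a character of bounded modulus -/
def T_MEAN : Prop := ∀ (a : ℤ) (p p' : ℕ) (η : ℝ), a ≠ 0 → p.Prime → p'.Prime → p ≠ p' → 0 < η →
  ∃ R : ℕ, ∀ (q q' : ℕ) (χ : DirichletCharacter ℂ q) (χ' : DirichletCharacter ℂ q'), 1 ≤ q →
  1 ≤ q' →
  ‖mean (q * q') (fun m => (ch χ a (p * m) * conj (ch χ' a (p * m))) *
    conj (ch χ a (p' * m) * conj (ch χ' a (p' * m))))‖ ≤ η ∨
  ∃ (r : ℕ) (θ : DirichletCharacter ℂ r), 1 ≤ r ∧ r ≤ R ∧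
    ∀ n : ℕ, n.Coprime (q * q') → χ n * conj (χ' n) = θ n

/-- the character `θ` determines the class of `χ'` -/
def T_INJ : Prop := ∀ (q q₁ q₂ r : ℕ) (χ : DirichletCharacter ℂ q) (χ₁ : DirichletCharacter ℂ q₁)
  (χ₂ : DirichletCharacter ℂ q₂) (θ : DirichletCharacter ℂ r), 1 ≤ q → 1 ≤ q₁ → 1 ≤ q₂ →
  (∀ n : ℕ, n.Coprime (q * q₁) → χ n * conj (χ₁ n) = θ n) →
  (∀ n : ℕ, n.Coprime (q * q₂) → χ n * conj (χ₂ n) = θ n) → Same χ₁ χ₂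

/-- duality -/
def T_DUAL : Prop := ∀ (ι : Type) (S : Finset ι) (I : Finset ℕ) (w : ι → ℕ → ℂ) (β : ℕ → ℂ),
  (∀ m ∈ I, ‖β m‖ ≤ 1) →
  (∑ e ∈ S, ‖∑ m ∈ I, β m * w e m‖) ^ 2 ≤
    (I.card : ℝ) * ∑ e ∈ S, ∑ e' ∈ S, ‖∑ m ∈ I, w e m * conj (w e' m)‖

/-- the number of separated twists that correlate with a fixed function on a block -/
def T_BLK : Prop := ∀ (k : ℕ) (a : Fin k → ℤ) (b : Fin k) (p p' : ℕ) (C δ : ℝ),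
  Function.Injective a → (∀ j, a j ≠ 0) → p.Prime → p'.Prime → p ≠ p' → (∀ j, |a j| < p) →
  (∀ j, |a j| < p') → 0 < C → 0 < δ →
  ∃ (K N0 : ℕ) (B c : ℝ), 0 < c ∧ ∀ N : ℕ, N0 ≤ N → ∀ x y : ℕ, N ≤ x → x ≤ y → y ≤ 2 * N →
  ∀ (β : ℕ → ℂ) (S : Finset (Pt k)), (∀ m, ‖β m‖ ≤ 1) →
  (∀ e ∈ S, 1 ≤ e.q ∧ (e.q : ℝ) ≤ (N : ℝ) ^ c ∧ (∀ j, |e.t j| ≤ (N : ℝ) ^ C) ∧
    δ * N < ‖∑ m ∈ Finset.Ioc x y, β m * (W a b e (p * m) * conj (W a b e (p' * m)))‖) →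
  (∀ e ∈ S, ∀ e' ∈ S, e ≠ e' → Same e.χ e'.χ →
    ∃ l ∈ Finset.Icc 1 k, B * (N : ℝ) ^ l < |tau a (fun j => e.t j - e'.t j) l|) →
  S.card ≤ K

/-- the main theorem for natural numbers `x` -/
def T_TW : Prop := ∀ (k : ℕ) (a : Fin k → ℤ) (b : Fin k) (C ε : ℝ),
  Function.Injective a → (∀ j, a j ≠ 0) → 0 < C → 0 < ε →
  ∃ (J X : ℕ) (B c : ℝ), 0 < c ∧ ∀ x : ℕ, X ≤ x → ∀ D : ℕ → ℂ, (∀ n, ‖D n‖ ≤ 1) →
  ∀ S : Finset (Pt k),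
  (∀ e ∈ S, 1 ≤ e.q ∧ (e.q : ℝ) ≤ (x : ℝ) ^ c ∧ (∀ j, |e.t j| ≤ (x : ℝ) ^ C) ∧
    ∃ f : ℕ → ℂ, MB f ∧ ε * x < ‖∑ m ∈ Finset.Icc 1 x, f m * (D m * W a b e m)‖) →
  (∀ e ∈ S, ∀ e' ∈ S, e ≠ e' → Same e.χ e'.χ →
    ∃ l ∈ Finset.Icc 1 k, B * (x : ℝ) ^ l < |tau a (fun j => e.t j - e'.t j) l|) →
  S.card ≤ J

end Pool.Agent.EllTw
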